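import Mathlib

set_option autoImplicit false

/-!
Multiplicatively independent `S`-units.
-/

namespace Pool.Agent.K4H7.ET

open NumberField IsDedekindDomain Height

variable {L : Type} [Field L] [NumberField L]

/-- `x` is an `S`-unit, `S` consists of the infinite places and the primes in `T` -/
def SU (T : Finset (HeightOneSpectrum (𝓞 L))) (x : L) : Prop :=
  x ≠ 0 ∧ ∀ v : HeightOneSpectrum (𝓞 L), v ∉ T → FinitePlace.mk v x = 1

lemma SU.mul {T : Finset (HeightOneSpectrum (𝓞 L))} {x y : L} (hx : SU T x) (hy : SU T y) :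
    SU T (x * y) :=
  ⟨mul_ne_zero hx.1 hy.1, fun v hv => by rw [map_mul, hx.2 v hv, hy.2 v hv, one_mul]⟩

lemma SU.one {T : Finset (HeightOneSpectrum (𝓞 L))} : SU T (1 : L) :=
  ⟨one_ne_zero, fun _ _ => map_one _⟩

lemma SU.inv {T : Finset (HeightOneSpectrum (𝓞 L))} {x : L} (hx : SU T x) : SU T x⁻¹ :=
  ⟨inv_ne_zero hx.1, fun v hv => by rw [map_inv₀, hx.2 v hv, inv_one]⟩

lemma SU.pow {T : Finset (HeightOneSpectrum (𝓞 L))} {x : L} (hx : SU T x) (n : ℕ) :
    SU T (x ^ n) :=
  ⟨pow_ne_zero _ hx.1, fun v hv => by rw [map_pow, hx.2 v hv, one_pow]⟩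

lemma SU.prod {T : Finset (HeightOneSpectrum (𝓞 L))} {ι : Type} (s : Finset ι) (x : ι → L)
    (hx : ∀ i ∈ s, SU T (x i)) : SU T (∏ i ∈ s, x i) := by
  classical
  induction s using Finset.induction with
  | empty => simpa using SU.one
  | insert a s ha ih =>
    rw [Finset.prod_insert ha]
    exact (hx a (Finset.mem_insert_self _ _)).mul
      (ih fun i hi => hx i (Finset.mem_insert_of_mem hi))

/-- a generator of a power of a prime -/
lemma exists_gen (v : HeightOneSpectrum (𝓞 L)) : ∃ π : 𝓞 L, π ≠ 0 ∧ π ∈ v.asIdeal ∧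
    ∀ v' : HeightOneSpectrum (𝓞 L), v' ≠ v → π ∉ v'.asIdeal := by
  classical
  have hv : v.asIdeal ∈ nonZeroDivisors (Ideal (𝓞 L)) :=
    mem_nonZeroDivisors_of_ne_zero v.ne_bot
  set h := Fintype.card (ClassGroup (𝓞 L)) with hh
  have hpos : 0 < h := Fintype.card_pos
  have h1 : ClassGroup.mk0 (⟨v.asIdeal, hv⟩ ^ h : nonZeroDivisors (Ideal (𝓞 L))) = 1 := by
    rw [map_pow, hh]
    exact pow_card_eq_one
  rw [ClassGroup.mk0_eq_one_iff] at h1
  obtain ⟨π, hπ⟩ := h1.principal
  have hπ' : v.asIdeal ^ h = Ideal.span {π} := by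
    simpa using hπ
  have h0 : π ≠ 0 := by
    intro h0
    rw [h0, Ideal.span_singleton_eq_bot.2 rfl] at hπ'
    exact v.ne_bot ((pow_eq_zero_iff hpos.ne').1 hπ')
  refine ⟨π, h0, ?_, ?_⟩
  · have : π ∈ v.asIdeal ^ h := by rw [hπ']; exact Ideal.mem_span_singleton_self π
    exact Ideal.pow_le_self (by omega) this
  · intro v' hne hmem
    have h2 : v.asIdeal ^ h ≤ v'.asIdeal := by
      rw [hπ', Ideal.span_singleton_le_iff_mem]
      exact hmem
    have h3 : v.asIdeal ≤ v'.asIdeal := v'.isPrime.le_of_pow_le h2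
    exact hne (HeightOneSpectrum.ext (v.isMaximal.eq_of_le v'.isPrime.ne_top h3).symm)

/-- multiplicatively independent `S`-units -/
theorem gens (T : Finset (HeightOneSpectrum (𝓞 L))) :
    ∃ γ : (Fin (Units.rank L) ⊕ T) → L, (∀ i, SU T (γ i)) ∧
      ∀ a : (Fin (Units.rank L) ⊕ T) → ℤ, ∏ i, γ i ^ a i = 1 → a = 0 := by
  classical
  choose π hπ0 hπ1 hπ2 using exists_gen (L := L)
  have hunit : ∀ (u : (𝓞 L)ˣ) (v : HeightOneSpectrum (𝓞 L)),
      FinitePlace.mk v ((u : 𝓞 L) : L) = 1 := by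
    intro u v
    rw [FinitePlace.mk_apply]
    exact (FinitePlace.norm_eq_one_iff_notMem L v (u : 𝓞 L)).2 fun h =>
      v.isPrime.ne_top (Ideal.eq_top_of_isUnit_mem _ h u.isUnit)
  refine ⟨Sum.elim (fun i => ((Units.fundSystem L i : 𝓞 L) : L)) (fun v => (π v.1 : L)), ?_, ?_⟩
  · rintro (i | v)
    · exact ⟨by simp, fun v _ => hunit _ v⟩
    · refine ⟨?_, fun v' hv' => ?_⟩
      · simpa using hπ0 v.1
      · simp only [Sum.elim_inr]
        rw [FinitePlace.mk_apply]
        exact (FinitePlace.norm_eq_one_iff_notMem L v' (π v.1)).2 (hπ2 _ _ fun h => hv' (h ▸ v.2))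
  · intro a ha
    have hb : ∀ v : T, a (Sum.inr v) = 0 := by
      intro v
      have h1 := congrArg (FinitePlace.mk v.1) ha
      rw [map_prod, map_one, Fintype.prod_sum_type] at h1
      simp only [Sum.elim_inl, Sum.elim_inr, map_zpow₀] at h1
      rw [Finset.prod_eq_one (fun i _ => by rw [hunit, one_zpow]), one_mul,
        Finset.prod_eq_single v] at h1
      · have h2 : FinitePlace.mk v.1 (π v.1 : L) < 1 := by
          rw [FinitePlace.mk_apply]
          exact (FinitePlace.norm_lt_one_iff_mem L v.1 (π v.1)).2 (hπ1 v.1)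
        have h3 : 0 ≤ FinitePlace.mk v.1 (π v.1 : L) := apply_nonneg _ _
        exact (zpow_eq_one_iff_right₀ h3 h2.ne).1 h1
      · intro v' _ hne
        have : FinitePlace.mk v.1 (π v'.1 : L) = 1 := by
          rw [FinitePlace.mk_apply]
          exact (FinitePlace.norm_eq_one_iff_notMem L v.1 (π v'.1)).2
            (hπ2 _ _ fun h => hne (Subtype.ext h.symm))
        rw [this, one_zpow]
      · intro h; exact absurd (Finset.mem_univ _) h
    rw [Fintype.prod_sum_type] at ha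
    simp only [Sum.elim_inl, Sum.elim_inr, hb, zpow_zero, Finset.prod_const_one, mul_one] at ha
    have h4 : (1 : (𝓞 L)ˣ) = ((1 : Units.torsion L) : (𝓞 L)ˣ) *
        ∏ i, (Units.fundSystem L i) ^ (a (Sum.inl i)) := by
      rw [OneMemClass.coe_one, one_mul]
      apply Units.ext
      apply RingOfIntegers.coe_injective
      have h5 : (((∏ i, (Units.fundSystem L i) ^ (a (Sum.inl i)) : (𝓞 L)ˣ) : 𝓞 L) : L) =
          ∏ i, ((Units.fundSystem L i : 𝓞 L) : L) ^ (a (Sum.inl i)) := by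
        have h6 : ∀ u : (𝓞 L)ˣ, ((u : 𝓞 L) : L) =
            ((Units.map (algebraMap (𝓞 L) L : 𝓞 L →* L) u : Lˣ) : L) := fun u => rfl
        rw [h6, map_prod, Units.coe_prod]
        refine Finset.prod_congr rfl fun i _ => ?_
        rw [map_zpow, Units.val_zpow_eq_zpow_val]
        rfl
      refine Eq.trans ?_ (h5.trans ha).symm
      simp
    have h7 : (1 : (𝓞 L)ˣ) = ((1 : Units.torsion L) : (𝓞 L)ˣ) *
        ∏ i, (Units.fundSystem L i) ^ ((0 : Fin (Units.rank L) → ℤ) i) := by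
      simp
    have h8 := (Units.exist_unique_eq_mul_prod L (1 : (𝓞 L)ˣ)).unique
      (y₁ := (1, fun i => a (Sum.inl i))) (y₂ := (1, 0)) h4 h7
    funext i
    rcases i with i | v
    · exact congrFun (Prod.ext_iff.1 h8).2 i
    · exact hb v

end Pool.Agent.K4H7.ET
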