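import Pool.Agent.K4H7.ET.E1

set_option autoImplicit false

/-!
`S`-units close to one at an infinite place.
-/

namespace Pool.Agent.K4H7.ET

open NumberField IsDedekindDomain Height

/-- the pigeonhole principle for two functions with values in `[0, 1)` -/
lemma pigeon {α : Type} [Fintype α] (f g : α → ℝ) (hf0 : ∀ a, 0 ≤ f a) (hf1 : ∀ a, f a < 1)
    (hg0 : ∀ a, 0 ≤ g a) (hg1 : ∀ a, g a < 1) (N M : ℕ) (hN : 0 < N) (hM : 0 < M)
    (h : N * M < Fintype.card α) :
    ∃ a b, a ≠ b ∧ |f a - f b| ≤ 1 / N ∧ |g a - g b| ≤ 1 / M := by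
  classical
  have hcell : ∀ (x : ℝ) (K : ℕ), 0 < K → 0 ≤ x → x < 1 → ⌊(K : ℝ) * x⌋₊ ∈ Finset.range K := by
    intro x K hK h0 h1
    rw [Finset.mem_range, Nat.floor_lt (by positivity)]
    have : (0 : ℝ) < K := by exact_mod_cast hK
    nlinarith
  have hclose : ∀ (x y : ℝ) (K : ℕ), 0 < K → 0 ≤ x → 0 ≤ y →
      ⌊(K : ℝ) * x⌋₊ = ⌊(K : ℝ) * y⌋₊ → |x - y| ≤ 1 / K := by
    intro x y K hK h0 h1 he
    have hK' : (0 : ℝ) < K := by exact_mod_cast hK
    have e1 := Nat.floor_le (show 0 ≤ (K : ℝ) * x by positivity)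
    have e2 := Nat.lt_floor_add_one ((K : ℝ) * x)
    have e3 := Nat.floor_le (show 0 ≤ (K : ℝ) * y by positivity)
    have e4 := Nat.lt_floor_add_one ((K : ℝ) * y)
    rw [he] at e1 e2
    rw [le_div_iff₀ hK', ← abs_of_pos hK', ← abs_mul, abs_le]
    constructor <;> nlinarith
  obtain ⟨a, _, b, _, hab, he⟩ := Finset.exists_ne_map_eq_of_card_lt_of_maps_to
    (s := (Finset.univ : Finset α)) (t := Finset.range N ×ˢ Finset.range M)
    (f := fun a => (⌊(N : ℝ) * f a⌋₊, ⌊(M : ℝ) * g a⌋₊)) (by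
      rw [Finset.card_product, Finset.card_range, Finset.card_range, Finset.card_univ]
      exact h) (by
      intro a _
      exact Finset.mem_coe.2 (Finset.mem_product.2
        ⟨hcell _ _ hN (hf0 a) (hf1 a), hcell _ _ hM (hg0 a) (hg1 a)⟩))
  have he' := Prod.ext_iff.1 he
  exact ⟨a, b, hab, hclose _ _ _ hN (hf0 a) (hf0 b) he'.1, hclose _ _ _ hM (hg0 a) (hg0 b) he'.2⟩

variable {L : Type} [Field L] [NumberField L]

theorem gens' (T : Finset (HeightOneSpectrum (𝓞 L))) :
    ∃ (ι : Type) (_ : Fintype ι), Fintype.card ι =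
      Fintype.card (InfinitePlace L) + T.card - 1 ∧ ∃ γ : ι → L, (∀ i, SU T (γ i)) ∧
      ∀ a : ι → ℤ, ∏ i, γ i ^ a i = 1 → a = 0 := by
  have hInf : 0 < Fintype.card (InfinitePlace L) := Fintype.card_pos
  refine ⟨Fin (Units.rank L) ⊕ T, inferInstance, ?_, gens T⟩
  rw [Fintype.card_sum, Fintype.card_fin, Fintype.card_coe, Units.rank]
  omega

/-- `S`-units close to one at an infinite place -/
theorem near_one (T : Finset (HeightOneSpectrum (𝓞 L))) (w₀ : InfinitePlace L)
    (hs : 3 ≤ Fintype.card (InfinitePlace L) + T.card) :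
    ∃ C : ℝ, 0 < C ∧ ∃ B₀ : ℕ, 0 < B₀ ∧ ∀ B : ℕ, B₀ ≤ B → ∃ y : L, SU T y ∧ y ≠ 1 ∧
      logHeight₁ y ≤ C * (B : ℝ) ^ 2 ∧ w₀ (1 - y) ≤ 1 / 2 ∧
      w₀ (1 - y) ^ w₀.mult ≤
        C / (B : ℝ) ^ (2 * (Fintype.card (InfinitePlace L) + T.card - 2)) := by
  classical
  obtain ⟨ι, _, hcard, γ, hγ, hind⟩ := gens' T
  set s : ℕ := Fintype.card (InfinitePlace L) + T.card with hsdef
  have hInf : 0 < Fintype.card (InfinitePlace L) := Fintype.card_pos
  obtain ⟨m, hm⟩ : ∃ m, s = m + 3 := ⟨s - 3, by omega⟩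
  have hcard' : Fintype.card ι = m + 2 := by omega
  have hs2 : s - 2 = m + 1 := by omega
  set σ := w₀.embedding with hσ
  set g : ι → L := fun i => γ i ^ 2 with hg
  have hg0 : ∀ i, g i ≠ 0 := fun i => pow_ne_zero _ (hγ i).1
  set C1 : ℝ := ∑ i, |Real.log ‖σ (g i)‖| with hC1
  have hC10 : 0 ≤ C1 := Finset.sum_nonneg fun i _ => abs_nonneg _
  set C2 : ℝ := ∑ i, logHeight₁ (g i) with hC2
  have hC20 : 0 ≤ C2 := Finset.sum_nonneg fun i _ => zero_le_logHeight₁ _
  set D : ℝ := 2 * C1 + 2 * Real.pi + 2 with hD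
  have hDpos : 0 < D := by positivity
  obtain ⟨B₁, hB₁⟩ := exists_nat_gt (4 * D)
  refine ⟨2 * C2 + 4 * D ^ 2 + 2 * D + 1, by positivity, B₁ + 1, Nat.succ_pos _, fun B hB => ?_⟩
  have hB0 : 0 < B := by omega
  have hBr : (0 : ℝ) < B := by exact_mod_cast hB0
  have hB1 : (1 : ℝ) ≤ B := by exact_mod_cast hB0
  have hDB : 4 * D ≤ B := by
    have : (B₁ : ℝ) ≤ B := by exact_mod_cast (show B₁ ≤ B by omega)
    linarith
  set A : ℕ := B ^ 2 with hA
  have hAr : (A : ℝ) = (B : ℝ) ^ 2 := by rw [hA]; push_cast; rfl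
  set X : (ι → Fin (A + 1)) → L := fun a => ∏ i, g i ^ ((a i : ℕ)) with hX
  have hXSU : ∀ a, SU T (X a) := fun a =>
    SU.prod _ _ fun i _ => ((hγ i).pow 2).pow _
  have hX0 : ∀ a, X a ≠ 0 := fun a => (hXSU a).1
  have hz0 : ∀ a, σ (X a) ≠ 0 := fun a => (map_ne_zero σ).2 (hX0 a)
  -- the logarithm of the absolute value
  have hlog : ∀ a, |Real.log ‖σ (X a)‖| ≤ C1 * A := by
    intro a
    have e1 : Real.log ‖σ (X a)‖ = ∑ i, ((a i : ℕ) : ℝ) * Real.log ‖σ (g i)‖ := by
      rw [hX, map_prod, norm_prod, Real.log_prod]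
      · refine Finset.sum_congr rfl fun i _ => ?_
        rw [map_pow, norm_pow, Real.log_pow]
      · intro i _
        exact norm_ne_zero_iff.2 ((map_ne_zero σ).2 (pow_ne_zero _ (hg0 i)))
    rw [e1, hC1, Finset.sum_mul]
    refine (Finset.abs_sum_le_sum_abs _ _).trans (Finset.sum_le_sum fun i _ => ?_)
    rw [abs_mul, Nat.abs_cast, mul_comm]
    refine mul_le_mul_of_nonneg_left ?_ (abs_nonneg _)
    exact_mod_cast Nat.lt_succ_iff.1 (a i).2
  have hheight : ∀ a, logHeight₁ (X a) ≤ C2 * A := by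
    intro a
    refine (logHeight₁_prod_le _ _).trans ?_
    rw [hC2, Finset.sum_mul]
    refine Finset.sum_le_sum fun i _ => ?_
    rw [logHeight₁_pow, mul_comm]
    refine mul_le_mul_of_nonneg_left ?_ (zero_le_logHeight₁ _)
    exact_mod_cast Nat.lt_succ_iff.1 (a i).2
  -- normalised functions
  set W : ℝ := 2 * C1 * A + 1 with hW
  have hW0 : 0 < W := by positivity
  set f : (ι → Fin (A + 1)) → ℝ := fun a => (Real.log ‖σ (X a)‖ + C1 * A) / W with hf
  set h : (ι → Fin (A + 1)) → ℝ := fun a => ((σ (X a)).arg + Real.pi) / (2 * Real.pi + 1) with hh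
  have hpi := Real.pi_pos
  have hf0 : ∀ a, 0 ≤ f a := fun a => div_nonneg (by have := abs_le.1 (hlog a); linarith) hW0.le
  have hf1 : ∀ a, f a < 1 := fun a => by
    rw [hf]
    simp only
    rw [div_lt_one hW0]
    have := abs_le.1 (hlog a)
    linarith
  have hh0 : ∀ a, 0 ≤ h a := fun a => div_nonneg (by
    have := Complex.neg_pi_lt_arg (σ (X a)); linarith) (by positivity)
  have hh1 : ∀ a, h a < 1 := fun a => by
    rw [hh]
    simp only
    rw [div_lt_one (by positivity)]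
    have := Complex.arg_le_pi (σ (X a))
    linarith
  have hcardA : Fintype.card (ι → Fin (A + 1)) = (A + 1) ^ (m + 2) := by
    rw [Fintype.card_fun, Fintype.card_fin, hcard']
  have hlt : A ^ (m + 2) < (A + 1) ^ (m + 2) :=
    Nat.pow_lt_pow_left (Nat.lt_succ_self A) (by omega)
  -- the difference
  have key : ∃ a b, a ≠ b ∧ ∃ u : ℂ, σ (X a / X b) = Complex.exp u ∧ ‖u‖ ≤ 1 / 4 ∧
      (2 * ‖u‖) ^ w₀.mult ≤ (4 * D ^ 2 + 2 * D) / (B : ℝ) ^ (2 * (m + 1)) := by
    have hexp : ∀ a b, σ (X a / X b) =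
        Complex.exp (Complex.log (σ (X a)) - Complex.log (σ (X b))) := by
      intro a b
      rw [Complex.exp_sub, Complex.exp_log (hz0 a), Complex.exp_log (hz0 b), map_div₀]
    have hre : ∀ a b, (Complex.log (σ (X a)) - Complex.log (σ (X b))).re = W * (f a - f b) := by
      intro a b
      rw [Complex.sub_re, Complex.log_re, Complex.log_re, hf]
      simp only
      field_simp
      ring
    have him : ∀ a b, (Complex.log (σ (X a)) - Complex.log (σ (X b))).im =
        (2 * Real.pi + 1) * (h a - h b) := by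
      intro a b
      rw [Complex.sub_im, Complex.log_im, Complex.log_im, hh]
      simp only
      have : (2 * Real.pi + 1) ≠ 0 := by positivity
      field_simp
      ring
    have hWle : W ≤ (2 * C1 + 1) * (B : ℝ) ^ 2 := by
      rw [hW, hAr]
      have : 1 ≤ (B : ℝ) ^ 2 := one_le_pow₀ hB1
      nlinarith
    by_cases hr : w₀.IsReal
    · obtain ⟨a, b, hab, h1, -⟩ := pigeon f h hf0 hf1 hh0 hh1 (A ^ (m + 2)) 1
        (by positivity) one_pos (by rw [hcardA, mul_one]; exact hlt)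
      refine ⟨a, b, hab, _, hexp a b, ?_⟩
      -- the arguments are zero
      have harg : ∀ a, (σ (X a)).arg = 0 := by
        intro a
        have e1 : X a = (∏ i, γ i ^ ((a i : ℕ))) ^ 2 := by
          rw [hX, ← Finset.prod_pow]
          refine Finset.prod_congr rfl fun i _ => ?_
          rw [hg]
          simp only
          rw [← pow_mul, ← pow_mul, mul_comm]
        have e2 : σ (X a) = (((w₀.embedding_of_isReal hr (∏ i, γ i ^ ((a i : ℕ)))) ^ 2 : ℝ) : ℂ) := by
          rw [e1, map_pow, Complex.ofReal_pow, InfinitePlace.embedding_of_isReal_apply]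
        rw [e2]
        exact Complex.arg_ofReal_of_nonneg (sq_nonneg _)
      have him0 : (Complex.log (σ (X a)) - Complex.log (σ (X b))).im = 0 := by
        rw [Complex.sub_im, Complex.log_im, Complex.log_im, harg, harg, sub_zero]
      have hn : ‖Complex.log (σ (X a)) - Complex.log (σ (X b))‖ ≤
          D / (B : ℝ) ^ (2 * (m + 1)) := by
        refine (Complex.norm_le_abs_re_add_abs_im _).trans ?_
        rw [him0, abs_zero, add_zero, hre, abs_mul, abs_of_pos hW0]
        have h2 : |f a - f b| ≤ 1 / ((B : ℝ) ^ 2) ^ (m + 2) := by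
          refine h1.trans (le_of_eq ?_)
          push_cast
          rw [hAr]
        have h3 : W * |f a - f b| ≤ (2 * C1 + 1) * (B : ℝ) ^ 2 * (1 / ((B : ℝ) ^ 2) ^ (m + 2)) :=
          mul_le_mul hWle h2 (abs_nonneg _) (by positivity)
        refine h3.trans ?_
        have h4 : (2 * C1 + 1) * (B : ℝ) ^ 2 * (1 / ((B : ℝ) ^ 2) ^ (m + 2)) =
            (2 * C1 + 1) / (B : ℝ) ^ (2 * (m + 1)) := by
          rw [← pow_mul, show 2 * (m + 2) = 2 + 2 * (m + 1) by ring, pow_add]
          field_simp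
        rw [h4]
        gcongr
        rw [hD]
        linarith
      have hBp : D / (B : ℝ) ^ (2 * (m + 1)) ≤ 1 / 4 := by
        rw [div_le_div_iff₀ (by positivity) (by norm_num)]
        have : (B : ℝ) ≤ (B : ℝ) ^ (2 * (m + 1)) := by
          calc (B : ℝ) = (B : ℝ) ^ 1 := (pow_one _).symm
            _ ≤ (B : ℝ) ^ (2 * (m + 1)) := pow_le_pow_right₀ hB1 (by omega)
        linarith
      refine ⟨hn.trans hBp, ?_⟩
      have hmult : w₀.mult = 1 := by
        rw [InfinitePlace.mult, if_pos hr]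
      rw [hmult, pow_one]
      have h5 : 2 * (D / (B : ℝ) ^ (2 * (m + 1))) = (2 * D) / (B : ℝ) ^ (2 * (m + 1)) := by ring
      have h6 : (2 * D) / (B : ℝ) ^ (2 * (m + 1)) ≤
          (4 * D ^ 2 + 2 * D) / (B : ℝ) ^ (2 * (m + 1)) := by
        gcongr
        nlinarith [sq_nonneg D]
      linarith
    · have hAB : A ^ (m + 2) = B ^ (m + 3) * B ^ (m + 1) := by
        rw [hA, ← pow_mul, ← pow_add]
        congr 1
        ring
      obtain ⟨a, b, hab, h1, h2⟩ := pigeon f h hf0 hf1 hh0 hh1 (B ^ (m + 3)) (B ^ (m + 1))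
        (by positivity) (by positivity) (by rw [hcardA, ← hAB]; exact hlt)
      refine ⟨a, b, hab, _, hexp a b, ?_⟩
      have hn : ‖Complex.log (σ (X a)) - Complex.log (σ (X b))‖ ≤ D / (B : ℝ) ^ (m + 1) := by
        refine (Complex.norm_le_abs_re_add_abs_im _).trans ?_
        rw [hre, him, abs_mul, abs_mul, abs_of_pos hW0,
          abs_of_pos (show 0 < 2 * Real.pi + 1 by positivity)]
        have h3 : W * |f a - f b| ≤ (2 * C1 + 1) * (B : ℝ) ^ 2 * (1 / (B : ℝ) ^ (m + 3)) := by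
          refine mul_le_mul hWle (h1.trans (le_of_eq ?_)) (abs_nonneg _) (by positivity)
          push_cast
          rfl
        have h4 : (2 * Real.pi + 1) * |h a - h b| ≤ (2 * Real.pi + 1) * (1 / (B : ℝ) ^ (m + 1)) := by
          refine mul_le_mul_of_nonneg_left (h2.trans (le_of_eq ?_)) (by positivity)
          push_cast
          rfl
        have h5 : (2 * C1 + 1) * (B : ℝ) ^ 2 * (1 / (B : ℝ) ^ (m + 3)) =
            (2 * C1 + 1) / (B : ℝ) ^ (m + 1) := by
          rw [show m + 3 = 2 + (m + 1) by ring, pow_add]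
          field_simp
        have h6 : D / (B : ℝ) ^ (m + 1) = (2 * C1 + 1) / (B : ℝ) ^ (m + 1) +
            (2 * Real.pi + 1) * (1 / (B : ℝ) ^ (m + 1)) := by
          rw [hD]
          ring
        linarith
      have hBp : D / (B : ℝ) ^ (m + 1) ≤ 1 / 4 := by
        rw [div_le_div_iff₀ (by positivity) (by norm_num)]
        have : (B : ℝ) ≤ (B : ℝ) ^ (m + 1) := by
          calc (B : ℝ) = (B : ℝ) ^ 1 := (pow_one _).symm
            _ ≤ (B : ℝ) ^ (m + 1) := pow_le_pow_right₀ hB1 (by omega)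
        linarith
      refine ⟨hn.trans hBp, ?_⟩
      have hmult : w₀.mult = 2 := by
        rw [InfinitePlace.mult, if_neg hr]
      rw [hmult]
      have h7 : (2 * ‖Complex.log (σ (X a)) - Complex.log (σ (X b))‖) ^ 2 ≤
          (2 * (D / (B : ℝ) ^ (m + 1))) ^ 2 := by
        gcongr
      refine h7.trans ?_
      have h8 : (2 * (D / (B : ℝ) ^ (m + 1))) ^ 2 = 4 * D ^ 2 / (B : ℝ) ^ (2 * (m + 1)) := by
        rw [mul_pow, div_pow, ← pow_mul, mul_comm (m + 1) 2]
        ring
      rw [h8]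
      gcongr
      linarith
  obtain ⟨a, b, hab, u, hu, hu1, hu2⟩ := key
  refine ⟨X a / X b, ?_, ?_, ?_, ?_, ?_⟩
  · rw [div_eq_mul_inv]
    exact (hXSU a).mul (hXSU b).inv
  · intro h1
    apply hab
    have h2 : ∏ i, γ i ^ (2 * ((a i : ℕ) : ℤ) - 2 * ((b i : ℕ) : ℤ)) = 1 := by
      rw [← h1, hX, ← Finset.prod_div_distrib]
      refine Finset.prod_congr rfl fun i _ => ?_
      rw [hg]
      simp only
      rw [zpow_sub₀ (hγ i).1, ← pow_mul, ← pow_mul]
      congr 1 <;> norm_cast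
    have h3 := hind _ h2
    funext i
    have h4 := congrFun h3 i
    simp only [Pi.zero_apply] at h4
    apply Fin.ext
    omega
  · rw [div_eq_mul_inv]
    refine (logHeight₁_mul_le _ _).trans ?_
    rw [logHeight₁_inv]
    have e1 := hheight a
    have e2 := hheight b
    rw [hAr] at e1 e2
    have : 0 ≤ (4 * D ^ 2 + 2 * D + 1) * (B : ℝ) ^ 2 := by positivity
    nlinarith
  · rw [← InfinitePlace.norm_embedding_eq, map_sub, map_one, ← hσ, hu, norm_sub_rev]
    have h1 := Complex.norm_exp_sub_one_le (hu1.trans (by norm_num))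
    linarith
  · rw [← InfinitePlace.norm_embedding_eq, map_sub, map_one, ← hσ, hu, norm_sub_rev, hs2]
    refine (pow_le_pow_left₀ (norm_nonneg _) (Complex.norm_exp_sub_one_le (hu1.trans (by norm_num))) _).trans
      (hu2.trans ?_)
    exact div_le_div_of_nonneg_right (by linarith) (by positivity)

end Pool.Agent.K4H7.ET
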