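import Pool.Agent.K4H7.ET.E1

set_option autoImplicit false

/-!
Heights of vectors of `S`-units.
-/

namespace Pool.Agent.K4H7.ET

open NumberField IsDedekindDomain Height

variable {L : Type} [Field L] [NumberField L]

/-- the product formula for `S`-units -/
lemma su_sum {T : Finset (HeightOneSpectrum (𝓞 L))} {x : L} (hx : SU T x) :
    ∑ w : InfinitePlace L, (w.mult : ℝ) * Real.log (w x) +
      ∑ v ∈ T, Real.log (FinitePlace.mk v x) = 0 := by
  classical
  have h := prod_abs_eq_one (K := L) hx.1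
  have e : ∏ᶠ w : FinitePlace L, w x = ∏ v ∈ T, FinitePlace.mk v x := by
    rw [← finprod_comp_equiv (FinitePlace.equivHeightOneSpectrum (K := L)).symm]
    refine finprod_eq_prod_of_mulSupport_subset _ fun v hv => ?_
    by_contra hc
    exact hv (hx.2 v hc)
  have h1 : ∀ w : InfinitePlace L, 0 < w x := fun w => w.pos_iff.2 hx.1
  have h2 : ∀ v : HeightOneSpectrum (𝓞 L), 0 < FinitePlace.mk v x := fun v =>
    FinitePlace.pos_iff.2 hx.1
  rw [e] at h
  have h3 := congrArg Real.log h
  rw [Real.log_mul (Finset.prod_pos fun w _ => pow_pos (h1 w) _).ne'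
    (Finset.prod_pos fun v _ => h2 v).ne', Real.log_prod fun w _ => (pow_pos (h1 w) _).ne',
    Real.log_prod fun v _ => (h2 v).ne', Real.log_one] at h3
  rw [← h3]
  congr 1
  exact Finset.sum_congr rfl fun w _ => (Real.log_pow _ _).symm

/-- the height of a vector of `S`-units -/
lemma su_height {T : Finset (HeightOneSpectrum (𝓞 L))} {n : ℕ} (x : Fin (n + 1) → L)
    (hx : ∀ i, SU T (x i)) :
    logHeight x = ∑ w : InfinitePlace L, (w.mult : ℝ) * Real.log (⨆ j, w (x j)) +
      ∑ v ∈ T, Real.log (⨆ j, FinitePlace.mk v (x j)) := by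
  classical
  have hx0 : x ≠ 0 := fun h => (hx 0).1 (congrFun h 0)
  have e : ∏ᶠ w : FinitePlace L, ⨆ i, w (x i) = ∏ v ∈ T, ⨆ i, FinitePlace.mk v (x i) := by
    rw [← finprod_comp_equiv (FinitePlace.equivHeightOneSpectrum (K := L)).symm]
    refine finprod_eq_prod_of_mulSupport_subset _ fun v hv => ?_
    by_contra hc
    apply hv
    show ⨆ i, FinitePlace.mk v (x i) = 1
    have : ∀ i, FinitePlace.mk v (x i) = 1 := fun i => (hx i).2 v hc
    simp only [this]
    exact ciSup_const
  have h1 : ∀ w : InfinitePlace L, 0 < ⨆ i, w (x i) := fun w =>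
    (w.pos_iff.2 (hx 0).1).trans_le (le_ciSup (f := fun i => w (x i))
      (Set.finite_range _).bddAbove 0)
  have h2 : ∀ v : HeightOneSpectrum (𝓞 L), 0 < ⨆ i, FinitePlace.mk v (x i) := fun v =>
    (FinitePlace.pos_iff.2 (hx 0).1).trans_le (le_ciSup (f := fun i => FinitePlace.mk v (x i))
      (Set.finite_range _).bddAbove 0)
  rw [logHeight_eq_log_mulHeight, NumberField.mulHeight_eq hx0, e,
    Real.log_mul (Finset.prod_pos fun w _ => pow_pos (h1 w) _).ne'
      (Finset.prod_pos fun v _ => h2 v).ne', Real.log_prod fun w _ => (pow_pos (h1 w) _).ne',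
    Real.log_prod fun v _ => (h2 v).ne']
  congr 1
  exact Finset.sum_congr rfl fun w _ => Real.log_pow _ _

end Pool.Agent.K4H7.ET
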