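import Pool.Agent.K4H7.ET.E3

set_option autoImplicit false

/-!
The excess of the proximity function at points with `S`-unit coordinates close to a crossing point.
-/

namespace Pool.Agent.K4H7.ET

open NumberField IsDedekindDomain Height

variable {L : Type} [Field L]

/-- the maximum of the absolute values -/
noncomputable def nm {n : ℕ} (f : AbsoluteValue L ℝ) (x : Fin (n + 1) → L) : ℝ := ⨆ j, f (x j)

lemma le_nm {n : ℕ} (f : AbsoluteValue L ℝ) (x : Fin (n + 1) → L) (j : Fin (n + 1)) :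
    f (x j) ≤ nm f x := le_ciSup (f := fun j => f (x j)) (Set.finite_range _).bddAbove j

lemma nm_pos {n : ℕ} (f : AbsoluteValue L ℝ) {x : Fin (n + 1) → L} (hx : x ≠ 0) : 0 < nm f x := by
  obtain ⟨j, hj⟩ := Function.ne_iff.1 hx
  exact (f.pos_iff.2 hj).trans_le (le_nm f x j)

lemma nm_nonneg {n : ℕ} (f : AbsoluteValue L ℝ) (x : Fin (n + 1) → L) : 0 ≤ nm f x :=
  (f.nonneg _).trans (le_nm f x 0)

/-- the value of a linear form -/
def vl {n : ℕ} (a x : Fin (n + 1) → L) : L := ∑ j, a j * x j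

lemma abv_vl {n : ℕ} (f : AbsoluteValue L ℝ) (a x : Fin (n + 1) → L) :
    f (vl a x) ≤ (1 + ∑ j, f (a j)) * nm f x := by
  have h0 := nm_nonneg f x
  calc f (vl a x) ≤ ∑ j, f (a j * x j) := f.sum_le _ _
    _ ≤ ∑ j, f (a j) * nm f x := Finset.sum_le_sum fun j _ => by
        rw [map_mul]
        exact mul_le_mul_of_nonneg_left (le_nm f x j) (f.nonneg _)
    _ = (∑ j, f (a j)) * nm f x := by rw [Finset.sum_mul]
    _ ≤ (1 + ∑ j, f (a j)) * nm f x := mul_le_mul_of_nonneg_right (by linarith) h0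

lemma pow_sub_one_le (f : AbsoluteValue L ℝ) (y : L) (hy : f (1 - y) ≤ 1 / 2) (b D : ℕ)
    (hb : b ≤ D) : f (y ^ b - 1) ≤ (D * 2 ^ D) * f (1 - y) := by
  have hy2 : f y ≤ 2 := by
    have h1 : f (1 - (1 - y)) ≤ f 1 + f (1 - y) := by
      have := f.add_le 1 (-(1 - y))
      rwa [← sub_eq_add_neg, f.map_neg] at this
    rw [sub_sub_cancel, map_one] at h1
    linarith
  have h2 : y ^ b - 1 = -((∑ i ∈ Finset.range b, y ^ i) * (1 - y)) := by
    rw [geom_sum_mul_neg y b]
    ring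
  rw [h2, f.map_neg, map_mul]
  refine mul_le_mul_of_nonneg_right ?_ (f.nonneg _)
  calc f (∑ i ∈ Finset.range b, y ^ i) ≤ ∑ i ∈ Finset.range b, f (y ^ i) := f.sum_le _ _
    _ ≤ ∑ i ∈ Finset.range b, (2 : ℝ) ^ D := Finset.sum_le_sum fun i hi => by
        rw [map_pow]
        calc f y ^ i ≤ 2 ^ i := pow_le_pow_left₀ (f.nonneg _) hy2 _
          _ ≤ 2 ^ D := pow_le_pow_right₀ (by norm_num)
            ((Finset.mem_range.1 hi).le.trans hb)
    _ = b * 2 ^ D := by rw [Finset.sum_const, Finset.card_range, nsmul_eq_mul]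
    _ ≤ D * 2 ^ D := by gcongr

/-- local estimate at an arbitrary place -/
lemma loc {n q : ℕ} (f : AbsoluteValue L ℝ) (H : Fin q → Fin (n + 1) → L)
    (e : Fin (n + 1) ↪ Fin q) (P : Fin (n + 1) → L) (hP : ∀ l, P l ≠ 0) :
    ∃ C : ℝ, ∀ x u : Fin (n + 1) → L, (∀ l, u l ≠ 0) → (∀ l, vl (H (e l)) x = P l * u l) →
      (∀ i, vl (H i) x ≠ 0) → ∀ J : Finset (Fin q), (∀ j ∈ J, j ∉ Set.range e) →
      (n + 1) * Real.log (nm f u) - ∑ l, Real.log (f (u l)) +
        ∑ j ∈ J, (Real.log (nm f u) - Real.log (f (vl (H j) x))) - C ≤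
        ∑ i, Real.log (nm f x / f (vl (H i) x)) := by
  classical
  -- comparison of `u` and `x`
  set A : ℝ := 1 + ∑ l, (1 + ∑ j, f (H (e l) j)) * (f (P l))⁻¹ with hA
  have hA1 : 1 ≤ A := by
    have : 0 ≤ ∑ l, (1 + ∑ j, f (H (e l) j)) * (f (P l))⁻¹ :=
      Finset.sum_nonneg fun l _ => mul_nonneg
        (add_nonneg zero_le_one (Finset.sum_nonneg fun j _ => f.nonneg _))
        (inv_nonneg.2 (f.nonneg _))
    linarith
  have hA0 : 0 < A := by linarith
  set G : ℝ := ∑ i, |Real.log (1 + ∑ j, f (H i j))| with hG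
  set Q : ℝ := ∑ l, |Real.log (f (P l))| with hQ
  refine ⟨(n + 1) * Real.log A + Q + q * Real.log A + G, ?_⟩
  intro x u hu hxu hHx J hJ
  have hu0 : u ≠ 0 := fun h => hu 0 (congrFun h 0)
  have hx0 : x ≠ 0 := by
    intro h
    have := hxu 0
    rw [h] at this
    apply mul_ne_zero (hP 0) (hu 0)
    rw [← this]
    simp [vl]
  have hnu := nm_pos f hu0
  have hnx := nm_pos f hx0
  have hux : nm f u ≤ A * nm f x := by
    refine ciSup_le fun l => ?_
    have h1 := abv_vl f (H (e l)) x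
    rw [hxu l, map_mul] at h1
    have hpl : 0 < f (P l) := f.pos_iff.2 (hP l)
    have h2 : f (u l) ≤ (1 + ∑ j, f (H (e l) j)) * (f (P l))⁻¹ * nm f x := by
      rw [mul_right_comm, ← div_eq_mul_inv, le_div_iff₀ hpl]
      linarith
    refine h2.trans (mul_le_mul_of_nonneg_right ?_ hnx.le)
    have h3 := Finset.single_le_sum (f := fun l => (1 + ∑ j, f (H (e l) j)) * (f (P l))⁻¹)
      (fun l _ => mul_nonneg (add_nonneg zero_le_one (Finset.sum_nonneg fun j _ => f.nonneg _))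
        (inv_nonneg.2 (f.nonneg _))) (Finset.mem_univ l)
    linarith
  have hlog : Real.log (nm f u) ≤ Real.log A + Real.log (nm f x) := by
    rw [← Real.log_mul hA0.ne' hnx.ne']
    exact Real.log_le_log hnu hux
  have hlA : 0 ≤ Real.log A := Real.log_nonneg hA1
  have hterm : ∀ i, Real.log (nm f x / f (vl (H i) x)) =
      Real.log (nm f x) - Real.log (f (vl (H i) x)) := fun i =>
    Real.log_div hnx.ne' (f.pos_iff.2 (hHx i)).ne'
  -- lower bound for each term
  have hlow : ∀ i, -|Real.log (1 + ∑ j, f (H i j))| ≤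
      Real.log (nm f x) - Real.log (f (vl (H i) x)) := by
    intro i
    have h1 : 0 < 1 + ∑ j, f (H i j) :=
      add_pos_of_pos_of_nonneg one_pos (Finset.sum_nonneg fun j _ => f.nonneg _)
    have h2 := Real.log_le_log (f.pos_iff.2 (hHx i)) (abv_vl f (H i) x)
    rw [Real.log_mul h1.ne' hnx.ne'] at h2
    have h3 := le_abs_self (Real.log (1 + ∑ j, f (H i j)))
    linarith
  set E : Finset (Fin q) := Finset.univ.image e with hE
  have hdisj : Disjoint E J := by
    rw [Finset.disjoint_left]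
    intro i hi hiJ
    obtain ⟨l, _, hl⟩ := Finset.mem_image.1 hi
    exact hJ i hiJ ⟨l, hl⟩
  have hsplit : ∑ i, Real.log (nm f x / f (vl (H i) x)) =
      ∑ i ∈ E, (Real.log (nm f x) - Real.log (f (vl (H i) x))) +
      (∑ i ∈ J, (Real.log (nm f x) - Real.log (f (vl (H i) x))) +
      ∑ i ∈ (E ∪ J)ᶜ, (Real.log (nm f x) - Real.log (f (vl (H i) x)))) := by
    rw [← add_assoc, ← Finset.sum_union hdisj, Finset.sum_add_sum_compl]
    exact Finset.sum_congr rfl fun i _ => hterm i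
  have h1 : (n + 1) * Real.log (nm f u) - ∑ l, Real.log (f (u l)) - (n + 1) * Real.log A - Q ≤
      ∑ i ∈ E, (Real.log (nm f x) - Real.log (f (vl (H i) x))) := by
    rw [hE, Finset.sum_image fun a _ b _ h => e.injective h]
    have h2 : ∀ l, Real.log (nm f u) - Real.log (f (u l)) - Real.log A - |Real.log (f (P l))| ≤
        Real.log (nm f x) - Real.log (f (vl (H (e l)) x)) := by
      intro l
      rw [hxu l, map_mul, Real.log_mul (f.pos_iff.2 (hP l)).ne' (f.pos_iff.2 (hu l)).ne']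
      have := le_abs_self (Real.log (f (P l)))
      linarith
    refine le_trans (le_of_eq ?_) (Finset.sum_le_sum fun l _ => h2 l)
    rw [Finset.sum_sub_distrib, Finset.sum_sub_distrib, Finset.sum_sub_distrib,
      Finset.sum_const, Finset.sum_const, Finset.card_univ, Fintype.card_fin, nsmul_eq_mul,
      nsmul_eq_mul]
    push_cast
    ring
  have h2 : ∑ j ∈ J, (Real.log (nm f u) - Real.log (f (vl (H j) x))) - q * Real.log A ≤
      ∑ i ∈ J, (Real.log (nm f x) - Real.log (f (vl (H i) x))) := by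
    have h3 : ∑ j ∈ J, (Real.log (nm f u) - Real.log (f (vl (H j) x))) ≤
        ∑ j ∈ J, ((Real.log (nm f x) - Real.log (f (vl (H j) x))) + Real.log A) :=
      Finset.sum_le_sum fun j _ => by linarith
    rw [Finset.sum_add_distrib, Finset.sum_const, nsmul_eq_mul] at h3
    have h4 : (J.card : ℝ) * Real.log A ≤ q * Real.log A := by
      refine mul_le_mul_of_nonneg_right ?_ hlA
      have := Finset.card_le_univ J
      rw [Fintype.card_fin] at this
      exact_mod_cast this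
    linarith
  have h3 : -G ≤ ∑ i ∈ (E ∪ J)ᶜ, (Real.log (nm f x) - Real.log (f (vl (H i) x))) := by
    have h4 : ∑ i ∈ (E ∪ J)ᶜ, -|Real.log (1 + ∑ j, f (H i j))| ≤
        ∑ i ∈ (E ∪ J)ᶜ, (Real.log (nm f x) - Real.log (f (vl (H i) x))) :=
      Finset.sum_le_sum fun i _ => hlow i
    refine le_trans ?_ h4
    rw [Finset.sum_neg_distrib, neg_le_neg_iff, hG]
    exact Finset.sum_le_sum_of_subset_of_nonneg (Finset.subset_univ _) fun i _ _ => abs_nonneg _
  rw [hsplit]
  linarith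

/-- the sum over the places in `S` -/
noncomputable def Sm [NumberField L] (T : Finset (HeightOneSpectrum (𝓞 L)))
    (φ : AbsoluteValue L ℝ → ℝ) : ℝ :=
  ∑ w : InfinitePlace L, (w.mult : ℝ) * φ w.1 + ∑ v ∈ T, φ (FinitePlace.mk v).1

lemma Sm_mono [NumberField L] (T : Finset (HeightOneSpectrum (𝓞 L)))
    (φ ψ : AbsoluteValue L ℝ → ℝ) (h : ∀ f, φ f ≤ ψ f) : Sm T φ ≤ Sm T ψ := by
  unfold Sm
  refine add_le_add (Finset.sum_le_sum fun w _ => ?_) (Finset.sum_le_sum fun v _ => h _)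
  exact mul_le_mul_of_nonneg_left (h _) (Nat.cast_nonneg _)

lemma Sm_add [NumberField L] (T : Finset (HeightOneSpectrum (𝓞 L)))
    (φ ψ : AbsoluteValue L ℝ → ℝ) : Sm T (fun f => φ f + ψ f) = Sm T φ + Sm T ψ := by
  unfold Sm
  simp only [mul_add, Finset.sum_add_distrib]
  ring

lemma Sm_sub [NumberField L] (T : Finset (HeightOneSpectrum (𝓞 L)))
    (φ ψ : AbsoluteValue L ℝ → ℝ) : Sm T (fun f => φ f - ψ f) = Sm T φ - Sm T ψ := by
  unfold Sm
  simp only [mul_sub, Finset.sum_sub_distrib]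
  ring

lemma Sm_mul [NumberField L] (T : Finset (HeightOneSpectrum (𝓞 L))) (c : ℝ)
    (φ : AbsoluteValue L ℝ → ℝ) : Sm T (fun f => c * φ f) = c * Sm T φ := by
  unfold Sm
  rw [mul_add, Finset.mul_sum, Finset.mul_sum]
  congr 1
  exact Finset.sum_congr rfl fun w _ => by ring

lemma Sm_sum [NumberField L] (T : Finset (HeightOneSpectrum (𝓞 L))) {ι : Type} (s : Finset ι)
    (φ : ι → AbsoluteValue L ℝ → ℝ) : Sm T (fun f => ∑ i ∈ s, φ i f) = ∑ i ∈ s, Sm T (φ i) := by
  classical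
  induction s using Finset.induction with
  | empty =>
    simp [Sm]
  | insert a s ha ih =>
    simp only [Finset.sum_insert ha]
    rw [Sm_add, ih]

/-- the excess at points close to a crossing point -/
theorem excess [NumberField L] {n q : ℕ} (T : Finset (HeightOneSpectrum (𝓞 L)))
    (w₀ : InfinitePlace L) (H : Fin q → Fin (n + 1) → L) (e : Fin (n + 1) ↪ Fin q)
    (P : Fin (n + 1) → L) (hP : ∀ l, P l ≠ 0) (N : Matrix (Fin (n + 1)) (Fin (n + 1)) L)
    (hN : ∀ u l, vl (H (e l)) (N.mulVec u) = P l * u l)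
    (J : Finset (Fin q)) (hJ : ∀ j ∈ J, j ∉ Set.range e)
    (hJ0 : ∀ j ∈ J, vl (H j) (N.mulVec 1) = 0) (D : ℕ) :
    ∃ C : ℝ, ∀ y : L, SU T y → y ≠ 1 → w₀ (1 - y) ≤ 1 / 2 → ∀ b : Fin (n + 1) → ℕ,
      (∀ i, b i ≤ D) → (∀ i, vl (H i) (N.mulVec fun i => y ^ b i) ≠ 0) →
      logHeight (N.mulVec fun i => y ^ b i) ≤ C + D * logHeight₁ y ∧
      -(J.card * Real.log (w₀ (1 - y) ^ w₀.mult)) - C ≤
        -(n + 1) * logHeight (N.mulVec fun i => y ^ b i) +
        Sm T (fun f => ∑ i, Real.log (nm f (N.mulVec fun i => y ^ b i) /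
          f (vl (H i) (N.mulVec fun i => y ^ b i)))) := by
  classical
  choose Cl hCl using fun f : AbsoluteValue L ℝ => loc f H e P hP
  -- the values of the forms in `J`
  set R : Fin q → Fin (n + 1) → L := fun j a => ∑ i, H j i * N i a with hR
  have hRv : ∀ j u, vl (H j) (N.mulVec u) = ∑ a, R j a * u a := by
    intro j u
    unfold vl Matrix.mulVec dotProduct
    simp only [hR, Finset.mul_sum, Finset.sum_mul]
    rw [Finset.sum_comm]
    exact Finset.sum_congr rfl fun a _ => Finset.sum_congr rfl fun i _ => by ring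
  set W : ℝ := 1 + ∑ j, ∑ a, w₀ (R j a) * (D * 2 ^ D) with hW
  have hW1 : 1 ≤ W := by
    have : 0 ≤ ∑ j, ∑ a, w₀ (R j a) * (D * 2 ^ D) := Finset.sum_nonneg fun j _ =>
      Finset.sum_nonneg fun a _ => mul_nonneg (apply_nonneg _ _) (by positivity)
    linarith
  set C3 : ℝ := ((Fintype.card (Fin (n + 1)) : ℝ)) with hC3
  obtain ⟨Ch, hCh⟩ : ∃ Ch : ℝ, ∀ u : Fin (n + 1) → L, logHeight (N.mulVec u) ≤ Ch + logHeight u := by
    refine ⟨Height.totalWeight L * Real.log (Nat.card (Fin (n + 1))) +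
      logHeight (fun p : Fin (n + 1) × Fin (n + 1) => N p.1 p.2), fun u => ?_⟩
    exact Height.logHeight_linearMap_apply_le
      (fun p : Fin (n + 1) × Fin (n + 1) => N p.1 p.2) u
  obtain ⟨Cp, hCp0, hCp⟩ : ∃ Cp : ℝ, 0 ≤ Cp ∧ ∀ (y : L) (b : Fin (n + 1) → ℕ), (∀ i, b i ≤ D) →
      logHeight (fun i => y ^ b i) ≤ Cp + D * logHeight₁ y := by
    have h1 : ∀ b : Fin (n + 1) → Fin (D + 1), ∃ C : ℝ, ∀ y : L,
        logHeight (fun i => y ^ ((b i : ℕ))) ≤ C + D * logHeight₁ y := by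
      intro b
      have hhom : ∀ i, (MvPolynomial.X 0 ^ ((b i : ℕ)) * MvPolynomial.X 1 ^ (D - (b i : ℕ)) :
          MvPolynomial (Fin 2) L).IsHomogeneous D := by
        intro i
        have := ((MvPolynomial.isHomogeneous_X L (0 : Fin 2)).pow (b i : ℕ)).mul
          ((MvPolynomial.isHomogeneous_X L (1 : Fin 2)).pow (D - (b i : ℕ)))
        rwa [one_mul, one_mul, Nat.add_sub_cancel' (Nat.lt_succ_iff.1 (b i).2)] at this
      obtain ⟨C, hC⟩ := Height.logHeight_eval_le' hhom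
      refine ⟨C, fun y => ?_⟩
      have h2 := hC ![y, 1]
      rw [← logHeight₁_eq_logHeight] at h2
      simpa using h2
    choose Cb hCb using h1
    refine ⟨∑ b, |Cb b|, Finset.sum_nonneg fun _ _ => abs_nonneg _, fun y b hb => ?_⟩
    have h2 := hCb (fun i => ⟨b i, Nat.lt_succ_iff.2 (hb i)⟩) y
    have h3 : Cb (fun i => ⟨b i, Nat.lt_succ_iff.2 (hb i)⟩) ≤ ∑ b, |Cb b| :=
      (le_abs_self _).trans (Finset.single_le_sum (f := fun b => |Cb b|)
        (fun _ _ => abs_nonneg _) (Finset.mem_univ _))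
    simp only at h2
    linarith
  set G : Fin q → AbsoluteValue L ℝ → ℝ := fun j f => |Real.log (1 + ∑ a, f (R j a))| with hG
  set C6 : Fin q → ℝ := fun j =>
    w₀.mult * (D * Real.log 2 + Real.log W) + Sm T (G j) with hC6
  refine ⟨(n + 1) * |Ch| + |Sm T Cl| + ∑ j, |C6 j| + |Ch| + Cp, ?_⟩
  intro y hy hy1 hyw b hb hHx
  set u : Fin (n + 1) → L := fun i => y ^ b i with hu
  set x : Fin (n + 1) → L := N.mulVec u with hx
  have huSU : ∀ i, SU T (u i) := fun i => hy.pow _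
  have hu0 : ∀ i, u i ≠ 0 := fun i => (huSU i).1
  have hune : u ≠ 0 := fun h => hu0 0 (congrFun h 0)
  have hh1 := hCh u
  have hh2 := hCp y b hb
  rw [← hu] at hh2
  have hCa := le_abs_self Ch
  have hCa0 := abs_nonneg Ch
  have hCa1 := abs_nonneg (Sm T Cl)
  have hC6s : 0 ≤ ∑ j, |C6 j| := Finset.sum_nonneg fun _ _ => abs_nonneg _
  have hnn : (0 : ℝ) ≤ n := Nat.cast_nonneg _
  refine ⟨?_, ?_⟩
  · have : 0 ≤ (n + 1 : ℝ) * |Ch| := by positivity
    linarith
  -- sum over the places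
  have hmain := Sm_mono T _ _ fun f => hCl f x u hu0 (fun l => hN u l) hHx J hJ
  rw [Sm_sub, Sm_add, Sm_sub, Sm_mul, Sm_sum, Sm_sum] at hmain
  have e1 : Sm T (fun f => Real.log (nm f u)) = logHeight u := (su_height u huSU).symm
  have e2 : ∀ l, Sm T (fun f => Real.log (f (u l))) = 0 := fun l => su_sum (huSU l)
  rw [e1, Finset.sum_eq_zero fun l _ => e2 l] at hmain
  -- the forms in `J`
  have hpos : 0 < w₀ (1 - y) := w₀.pos_iff.2 (sub_ne_zero.2 (Ne.symm hy1))
  have hlow : ∀ (j : Fin q) (f : AbsoluteValue L ℝ), -G j f ≤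
      Real.log (nm f u) - Real.log (f (vl (H j) x)) := by
    intro j f
    have h1 : 0 < 1 + ∑ a, f (R j a) :=
      add_pos_of_pos_of_nonneg one_pos (Finset.sum_nonneg fun j _ => f.nonneg _)
    have h2 : vl (H j) x = vl (R j) u := hRv j u
    have h3 := Real.log_le_log (f.pos_iff.2 (hHx j)) (le_of_eq_of_le (congrArg f h2) (abv_vl f (R j) u))
    rw [Real.log_mul h1.ne' (nm_pos f hune).ne'] at h3
    have h4 := le_abs_self (Real.log (1 + ∑ a, f (R j a)))
    simp only [hG]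
    linarith
  have hw0 : ∀ j ∈ J, -(D * Real.log 2) - Real.log W - Real.log (w₀ (1 - y)) ≤
      Real.log (nm w₀.1 u) - Real.log (w₀.1 (vl (H j) x)) := by
    intro j hj
    have h1 : vl (H j) x = ∑ a, R j a * (u a - 1) := by
      have e3 : (0 : L) = ∑ a, R j a := by
        have := hRv j 1
        rw [hJ0 j hj] at this
        simpa using this
      rw [hx, hRv j u]
      simp only [mul_sub, mul_one, Finset.sum_sub_distrib]
      rw [← e3, sub_zero]
    have h2 : w₀.1 (vl (H j) x) ≤ W * w₀ (1 - y) := by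
      rw [h1]
      refine (w₀.1.sum_le _ _).trans ?_
      have h3 : ∀ a, w₀.1 (R j a * (u a - 1)) ≤ w₀ (R j a) * (D * 2 ^ D) * w₀ (1 - y) := by
        intro a
        rw [map_mul, mul_assoc]
        exact mul_le_mul_of_nonneg_left (pow_sub_one_le w₀.1 y hyw (b a) D (hb a))
          (w₀.1.nonneg _)
      refine (Finset.sum_le_sum fun a _ => h3 a).trans ?_
      rw [← Finset.sum_mul]
      refine mul_le_mul_of_nonneg_right ?_ hpos.le
      have h4 := Finset.single_le_sum (f := fun j => ∑ a, w₀ (R j a) * ((D : ℝ) * 2 ^ D))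
        (fun j _ => Finset.sum_nonneg fun a _ => mul_nonneg (apply_nonneg _ _) (by positivity))
        (Finset.mem_univ j)
      linarith
    have h3 := Real.log_le_log (w₀.1.pos_iff.2 (hHx j)) h2
    rw [Real.log_mul (by linarith) hpos.ne'] at h3
    have h4 : (1 / 2 : ℝ) ^ D ≤ nm w₀.1 u := by
      have h5 : (1 / 2 : ℝ) ≤ w₀.1 y := by
        have h6 : w₀.1 (y + (1 - y)) ≤ w₀.1 y + w₀.1 (1 - y) := w₀.1.add_le _ _
        rw [add_sub_cancel, map_one] at h6
        have h7 : w₀.1 (1 - y) ≤ 1 / 2 := hyw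
        linarith
      calc (1 / 2 : ℝ) ^ D ≤ (1 / 2 : ℝ) ^ (b 0) :=
            pow_le_pow_of_le_one (by norm_num) (by norm_num) (hb 0)
        _ ≤ (w₀.1 y) ^ (b 0) := pow_le_pow_left₀ (by norm_num) h5 _
        _ = w₀.1 (u 0) := by rw [hu]; exact (map_pow w₀.1 y (b 0)).symm
        _ ≤ nm w₀.1 u := le_nm _ _ _
    have h5 := Real.log_le_log (by positivity) h4
    rw [Real.log_pow, one_div, Real.log_inv] at h5
    linarith
  have hJs : ∀ j ∈ J, -Real.log (w₀ (1 - y) ^ w₀.mult) - C6 j ≤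
      Sm T (fun f => Real.log (nm f u) - Real.log (f (vl (H j) x))) := by
    intro j hj
    rw [hC6]
    unfold Sm
    rw [Real.log_pow]
    have h1 : ∑ w : InfinitePlace L, (w.mult : ℝ) * -G j w.1 +
        w₀.mult * (-(D * Real.log 2) - Real.log W - Real.log (w₀ (1 - y)) ) ≤
        ∑ w : InfinitePlace L, (w.mult : ℝ) *
          (Real.log (nm w.1 u) - Real.log (w.1 (vl (H j) x))) := by
      rw [← Finset.sum_erase_add _ _ (Finset.mem_univ w₀),
        ← Finset.sum_erase_add (a := w₀) (f := fun w : InfinitePlace L => (w.mult : ℝ) *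
          (Real.log (nm w.1 u) - Real.log (w.1 (vl (H j) x)))) _ (Finset.mem_univ w₀)]
      have h2 : ∑ w ∈ Finset.univ.erase w₀, (w.mult : ℝ) * -G j w.1 ≤
          ∑ w ∈ Finset.univ.erase w₀, (w.mult : ℝ) *
          (Real.log (nm w.1 u) - Real.log (w.1 (vl (H j) x))) :=
        Finset.sum_le_sum fun w _ => mul_le_mul_of_nonneg_left (hlow j w.1) (Nat.cast_nonneg _)
      have h3 := mul_le_mul_of_nonneg_left (hw0 j hj) (Nat.cast_nonneg w₀.mult)
      have h4 : (w₀.mult : ℝ) * -G j w₀.1 ≤ 0 :=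
        mul_nonpos_of_nonneg_of_nonpos (Nat.cast_nonneg _) (neg_nonpos.2 (abs_nonneg _))
      linarith
    have h2 : ∑ v ∈ T, -G j (FinitePlace.mk v).1 ≤ ∑ v ∈ T,
        (Real.log (nm (FinitePlace.mk v).1 u) - Real.log ((FinitePlace.mk v).1 (vl (H j) x))) :=
      Finset.sum_le_sum fun v _ => hlow j _
    rw [Finset.sum_neg_distrib] at h2
    simp only [mul_neg, Finset.sum_neg_distrib] at h1
    linarith
  have h1 := Finset.sum_le_sum hJs
  rw [Finset.sum_sub_distrib, Finset.sum_const, nsmul_eq_mul] at h1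
  have h2 : ∑ j ∈ J, C6 j ≤ ∑ j, |C6 j| :=
    (Finset.sum_le_sum fun j _ => le_abs_self _).trans
      (Finset.sum_le_sum_of_subset_of_nonneg (Finset.subset_univ _) fun _ _ _ => abs_nonneg _)
  have h3 : (n + 1 : ℝ) * logHeight x ≤ (n + 1) * (|Ch| + logHeight u) :=
    mul_le_mul_of_nonneg_left (by linarith) (by positivity)
  have h4 := le_abs_self (Sm T Cl)
  have h5 : Sm T (fun f => Cl f) = Sm T Cl := rfl
  rw [h5] at hmain
  have h6 : -(n + 1 : ℝ) * logHeight x = -((n + 1 : ℝ) * logHeight x) := by ring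
  rw [h6]
  linarith

end Pool.Agent.K4H7.ET
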