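import Pool.Agent.K4H7.ET.E4
import Pool.Agent.K4H7.ET.E2

set_option autoImplicit false

/-!
Exponents avoiding the zero set of a polynomial.
-/

namespace Pool.Agent.K4H7.ET

open NumberField IsDedekindDomain Height

variable {L : Type} [Field L] [NumberField L]

lemma not_root (w : InfinitePlace L) (y : L) (D : ℕ) (hy1 : y ≠ 1) (hy : w (1 - y) ≤ 1 / 2)
    (hD : w (1 - y) * (D * 2 ^ D) < 1) (c : ℕ) (hc : 1 ≤ c) (hcD : c ≤ D) : y ^ c ≠ 1 := by
  intro h
  have h1 : (∑ i ∈ Finset.range c, y ^ i) = 0 := by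
    have h2 := geom_sum_mul y c
    rw [h, sub_self] at h2
    exact (mul_eq_zero.1 h2).resolve_right (sub_ne_zero.2 hy1)
  have h2 : (c : L) = ∑ i ∈ Finset.range c, (1 - y ^ i) := by
    rw [Finset.sum_sub_distrib, h1, sub_zero, Finset.sum_const, Finset.card_range, nsmul_eq_mul,
      mul_one]
  have h3 : w.1 (c : L) ≤ ∑ i ∈ Finset.range c, w.1 (1 - y ^ i) := by
    rw [h2]
    exact w.1.sum_le _ _
  have h4 : w.1 (c : L) = c := InfinitePlace.map_natCast w c
  have h5 : ∀ i ∈ Finset.range c, w.1 (1 - y ^ i) ≤ (D * 2 ^ D) * w (1 - y) := by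
    intro i hi
    have := pow_sub_one_le w.1 y hy i D ((Finset.mem_range.1 hi).le.trans hcD)
    rw [← neg_sub, w.1.map_neg]
    exact this
  have h6 := Finset.sum_le_sum h5
  rw [Finset.sum_const, Finset.card_range, nsmul_eq_mul] at h6
  rw [h4] at h3
  have hc' : (1 : ℝ) ≤ c := by exact_mod_cast hc
  have h7 : (c : ℝ) * ((D * 2 ^ D) * w (1 - y)) < c * 1 :=
    mul_lt_mul_of_pos_left (by linarith) (by linarith)
  linarith

omit [NumberField L] in
/-- small exponents avoiding the zero set of a polynomial -/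
lemma exists_exp {n : ℕ} (F : MvPolynomial (Fin (n + 1)) L) (hF : F ≠ 0) :
    ∃ D : ℕ, ∀ y : L, y ≠ 0 → (∀ c : ℕ, 1 ≤ c → c ≤ D → y ^ c ≠ 1) →
      ∃ b : Fin (n + 1) → ℕ, (∀ i, b i ≤ D) ∧ MvPolynomial.eval (fun i => y ^ b i) F ≠ 0 := by
  classical
  refine ⟨F.totalDegree, fun y hy0 hy => ?_⟩
  set D := F.totalDegree with hD
  have hinj : Set.InjOn (fun b : ℕ => y ^ b) (Finset.range (D + 1) : Set ℕ) := by
    have key : ∀ a b : ℕ, a < b → b ≤ D → y ^ a ≠ y ^ b := by
      intro a b hab hb h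
      have h1 : y ^ (b - a) = 1 := by
        have h2 : y ^ b = y ^ a * y ^ (b - a) := by
          rw [← pow_add, Nat.add_sub_cancel' hab.le]
        rw [h2] at h
        exact (mul_left_cancel₀ (pow_ne_zero a hy0) ((mul_one _).trans h)).symm
      exact hy (b - a) (by omega) (by omega) h1
    intro a ha b hb h
    rw [Finset.coe_range, Set.mem_Iio] at ha hb
    rcases lt_trichotomy a b with h1 | h1 | h1
    · exact absurd h (key a b h1 (by omega))
    · exact h1
    · exact absurd h.symm (key b a h1 (by omega))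
  by_contra hcon
  push Not at hcon
  apply hF
  refine MvPolynomial.eq_zero_of_eval_zero_at_prod_finset F
    (fun _ => (Finset.range (D + 1)).image fun b : ℕ => y ^ b) ?_ ?_
  · intro i
    rw [Finset.card_image_of_injOn hinj, Finset.card_range]
    exact Nat.lt_succ_of_le (MvPolynomial.degreeOf_le_totalDegree F i)
  · intro x hx
    have h1 : ∀ i, ∃ b, b ≤ D ∧ y ^ b = x i := by
      intro i
      obtain ⟨b, hb, h⟩ := Finset.mem_image.1 (hx i)
      exact ⟨b, Nat.lt_succ_iff.1 (Finset.mem_range.1 hb), h⟩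
    choose b hb1 hb2 using h1
    have h2 := hcon b hb1
    rwa [show (fun i => y ^ b i) = x from funext hb2] at h2

end Pool.Agent.K4H7.ET
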