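import Pool.Agent.K4H7.ET.E5

set_option autoImplicit false

/-!
Points of projective space over a given field with large excess.
-/

namespace Pool.Agent.K4H7.ET

open NumberField IsDedekindDomain Height

/-- a point on some of the hyperplanes and off other ones -/
lemma exists_point {k : Type} [Field k] [Infinite k] {n q : ℕ} (H : Fin q → Fin (n + 1) → k)
    (hH : ∀ I : Finset (Fin q), I.card ≤ n + 1 → LinearIndependent k (fun i : I => H i))
    (J : Finset (Fin q)) (hJ : J.card ≤ n) (E : Finset (Fin q)) (hEJ : Disjoint E J) :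
    ∃ P : Fin (n + 1) → k, (∀ j ∈ J, vl (H j) P = 0) ∧ ∀ i ∈ E, vl (H i) P ≠ 0 := by
  classical
  -- for one hyperplane
  have h1 : ∀ i ∈ E, ∃ v : Fin (n + 1) → k, (∀ j ∈ J, vl (H j) v = 0) ∧ vl (H i) v ≠ 0 := by
    intro i hi
    have hiJ : i ∉ J := Finset.disjoint_left.1 hEJ hi
    have hli := hH (insert i J) (by rw [Finset.card_insert_of_notMem hiJ]; omega)
    -- the form of `i` is not in the span of the forms in `J`
    have hns : H i ∉ Submodule.span k (H '' J) := by
      have h2 := hli.notMem_span_image (s := {l : (insert i J : Finset (Fin q)) | l.1 ∈ J})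
        (x := ⟨i, Finset.mem_insert_self _ _⟩) (by simpa using hiJ)
      intro h3
      apply h2
      convert h3 using 2
      ext v
      constructor
      · rintro ⟨l, hl, rfl⟩
        exact ⟨l.1, hl, rfl⟩
      · rintro ⟨l, hl, rfl⟩
        exact ⟨⟨l, Finset.mem_insert_of_mem hl⟩, hl, rfl⟩
    obtain ⟨φ, hφ1, hφ2⟩ := Submodule.exists_le_ker_of_notMem hns
    set v : Fin (n + 1) → k := fun a => φ (Pi.single a 1) with hv
    have hφ : ∀ x : Fin (n + 1) → k, φ x = vl x v := by
      intro x
      unfold vl
      conv_lhs => rw [← Finset.univ_sum_single x, map_sum]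
      refine Finset.sum_congr rfl fun a _ => ?_
      have : (Pi.single a (x a) : Fin (n + 1) → k) = x a • Pi.single a (1 : k) := by
        rw [← Pi.single_smul, smul_eq_mul, mul_one]
      rw [this, map_smul, smul_eq_mul]
    refine ⟨v, fun j hj => ?_, ?_⟩
    · rw [← hφ]
      exact hφ2 (Submodule.subset_span ⟨j, hj, rfl⟩)
    · rw [← hφ]
      exact hφ1
  -- the subspaces
  let V : Submodule k (Fin (n + 1) → k) :=
    { carrier := {v | ∀ j ∈ J, vl (H j) v = 0}
      add_mem' := by
        intro a b ha hb j hj
        have h2 := ha j hj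
        have h3 := hb j hj
        unfold vl at *
        simp only [Pi.add_apply, mul_add, Finset.sum_add_distrib, h2, h3, add_zero]
      zero_mem' := by
        intro j hj
        simp [vl]
      smul_mem' := by
        intro c a ha j hj
        have h2 := ha j hj
        unfold vl at *
        simp only [Pi.smul_apply, smul_eq_mul]
        rw [show ∑ x, H j x * (c * a x) = c * ∑ x, H j x * a x by
          rw [Finset.mul_sum]; exact Finset.sum_congr rfl fun _ _ => by ring, h2, mul_zero] }
  let p : E → Submodule k V := fun i =>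
    { carrier := {v | vl (H i.1) v.1 = 0}
      add_mem' := by
        intro a b ha hb
        have h2 : vl (H i.1) a.1 = 0 := ha
        have h3 : vl (H i.1) b.1 = 0 := hb
        show vl (H i.1) (a.1 + b.1) = 0
        unfold vl at *
        simp only [Pi.add_apply, mul_add, Finset.sum_add_distrib, h2, h3, add_zero]
      zero_mem' := by
        show vl (H i.1) 0 = 0
        simp [vl]
      smul_mem' := by
        intro c a ha
        have h2 : vl (H i.1) a.1 = 0 := ha
        show vl (H i.1) (c • a.1) = 0
        unfold vl at *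
        simp only [Pi.smul_apply, smul_eq_mul]
        rw [show ∑ x, H i.1 x * (c * a.1 x) = c * ∑ x, H i.1 x * a.1 x by
          rw [Finset.mul_sum]; exact Finset.sum_congr rfl fun _ _ => by ring, h2, mul_zero] }
  by_contra hcon
  push Not at hcon
  have hcov : ⋃ i, (p i : Set V) = Set.univ := by
    rw [Set.eq_univ_iff_forall]
    intro v
    obtain ⟨i, hi, h0⟩ := hcon v.1 v.2
    exact Set.mem_iUnion.2 ⟨⟨i, hi⟩, h0⟩
  obtain ⟨i, hi⟩ := Subspace.exists_eq_top_of_iUnion_eq_univ hcov
  obtain ⟨v, hv1, hv2⟩ := h1 i.1 i.2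
  have : (⟨v, hv1⟩ : V) ∈ p i := by rw [hi]; trivial
  exact hv2 this

end Pool.Agent.K4H7.ET
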