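import Pool.Agent.K4H7.ET.E6

set_option autoImplicit false

/-!
Points of projective space over a given field with large excess.
-/

namespace Pool.Agent.K4H7.ET

open NumberField IsDedekindDomain Height

/-- the value of a linear form over `k` at a point over `L` -/
def val {k L : Type} [Field k] [Field L] [Algebra k L] {n : ℕ} (a : Fin (n + 1) → k)
    (x : Fin (n + 1) → L) : L := ∑ j, algebraMap k L (a j) * x j

/-- the coordinates -/
lemma exists_matrix {k : Type} [Field k] [Infinite k] {n q : ℕ} (H : Fin q → Fin (n + 1) → k)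
    (hH : ∀ I : Finset (Fin q), I.card ≤ n + 1 → LinearIndependent k (fun i : I => H i))
    (m : ℕ) (hm : m ≤ n) (hq : n + 1 + m ≤ q) :
    ∃ (e : Fin (n + 1) ↪ Fin q) (J : Finset (Fin q)) (P : Fin (n + 1) → k)
      (N : Matrix (Fin (n + 1)) (Fin (n + 1)) k), J.card = m ∧ (∀ j ∈ J, j ∉ Set.range e) ∧
      (∀ l, P l ≠ 0) ∧ (∀ l i, ∑ a, H (e l) a * N a i = if l = i then P l else 0) ∧
      (∀ j ∈ J, ∑ a, H j a * ∑ i, N a i = 0) ∧
      ∃ N' : Matrix (Fin (n + 1)) (Fin (n + 1)) k, N * N' = 1 := by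
  classical
  set e : Fin (n + 1) ↪ Fin q := Fin.castLEEmb (by omega : n + 1 ≤ q) with he
  have hev : ∀ l, (e l : ℕ) = l := fun l => rfl
  set J : Finset (Fin q) := Finset.univ.filter fun j => n + 1 ≤ (j : ℕ) ∧ (j : ℕ) < n + 1 + m
    with hJ
  have hJc : J.card = m := by
    have h1 : J = (Finset.univ : Finset (Fin m)).image
        (fun i : Fin m => (⟨n + 1 + (i : ℕ), by have := i.2; omega⟩ : Fin q)) := by
      ext j
      rw [hJ, Finset.mem_filter, Finset.mem_image]
      constructor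
      · rintro ⟨-, h1, h2⟩
        exact ⟨⟨(j : ℕ) - (n + 1), by omega⟩, Finset.mem_univ _, Fin.ext (by simp; omega)⟩
      · rintro ⟨i, -, rfl⟩
        refine ⟨Finset.mem_univ _, ?_, ?_⟩
        · simp
        · simp
    rw [h1, Finset.card_image_of_injective _ (fun a b h => by
      have := congrArg Fin.val h
      simp only at this
      exact Fin.ext (by omega)), Finset.card_univ, Fintype.card_fin]
  have hJe : ∀ j ∈ J, j ∉ Set.range e := by
    rintro j hj ⟨l, rfl⟩
    have := (Finset.mem_filter.1 hj).2.1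
    rw [hev] at this
    omega
  obtain ⟨P, hP1, hP2⟩ := exists_point H hH J (by omega) (Finset.univ.image e) (by
    rw [Finset.disjoint_left]
    intro i hi hiJ
    obtain ⟨l, _, hl⟩ := Finset.mem_image.1 hi
    exact hJe i hiJ ⟨l, hl⟩)
  set M : Matrix (Fin (n + 1)) (Fin (n + 1)) k := Matrix.of fun l j => H (e l) j with hM
  have hMu : IsUnit M := by
    rw [← Matrix.linearIndependent_rows_iff_isUnit]
    have h1 := hH (Finset.univ.image e) (by
      rw [Finset.card_image_of_injective _ e.injective, Finset.card_univ, Fintype.card_fin])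
    have h2 := h1.comp (fun l : Fin (n + 1) => (⟨e l, Finset.mem_image_of_mem _
      (Finset.mem_univ l)⟩ : (Finset.univ.image e : Finset (Fin q)))) (fun a b h => by
        have := congrArg Subtype.val h
        exact e.injective this)
    exact h2
  have hdet : IsUnit M.det := (Matrix.isUnit_iff_isUnit_det M).1 hMu
  have hMM : M * M⁻¹ = 1 := Matrix.mul_nonsing_inv M hdet
  have hMM' : M⁻¹ * M = 1 := Matrix.nonsing_inv_mul M hdet
  set p : Fin (n + 1) → k := fun l => vl (H (e l)) P with hp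
  have hp0 : ∀ l, p l ≠ 0 := fun l => hP2 _ (Finset.mem_image_of_mem _ (Finset.mem_univ l))
  refine ⟨e, J, p, M⁻¹ * Matrix.diagonal p, hJc, hJe, hp0, ?_, ?_,
    Matrix.diagonal (fun l => (p l)⁻¹) * M, ?_⟩
  · intro l i
    have h1 : (M * (M⁻¹ * Matrix.diagonal p)) l i = Matrix.diagonal p l i := by
      rw [← Matrix.mul_assoc, hMM, Matrix.one_mul]
    rw [Matrix.mul_apply] at h1
    rw [Matrix.diagonal_apply] at h1
    exact h1
  · intro j hj
    have h1 : ∀ a, ∑ i, (M⁻¹ * Matrix.diagonal p) a i = P a := by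
      intro a
      have h2 : (M⁻¹ * Matrix.diagonal p).mulVec 1 = P := by
        rw [← Matrix.mulVec_mulVec]
        have h3 : (Matrix.diagonal p).mulVec 1 = M.mulVec P := by
          funext l
          rw [Matrix.mulVec_diagonal, Pi.one_apply, mul_one]
          rfl
        rw [h3, Matrix.mulVec_mulVec, hMM', Matrix.one_mulVec]
      have h4 := congrFun h2 a
      rw [Matrix.mulVec, dotProduct] at h4
      simpa using h4
    simp only [h1]
    exact hP1 j hj
  · rw [Matrix.mul_assoc, ← Matrix.mul_assoc (Matrix.diagonal p), Matrix.diagonal_mul_diagonal]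
    have : (fun i => p i * (p i)⁻¹) = fun _ => 1 := funext fun i => mul_inv_cancel₀ (hp0 i)
    rw [this, Matrix.diagonal_one, Matrix.one_mul, hMM']

/-- points over `L` with large excess -/
theorem main_L {k : Type} [Field k] [NumberField k] {L : Type} [Field L] [NumberField L]
    [Algebra k L] (T : Finset (HeightOneSpectrum (𝓞 L)))
    (hs : 3 ≤ Fintype.card (InfinitePlace L) + T.card) {n q : ℕ} (H : Fin q → Fin (n + 1) → k)
    (hH : ∀ I : Finset (Fin q), I.card ≤ n + 1 → LinearIndependent k (fun i : I => H i))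
    (hH0 : ∀ i, H i ≠ 0)
    (m : ℕ) (hm : m ≤ n) (hq : n + 1 + m ≤ q) (F : MvPolynomial (Fin (n + 1)) k) (hF : F ≠ 0) :
    ∃ C : ℝ, 0 < C ∧ ∃ B₀ : ℕ, 0 < B₀ ∧ ∀ B : ℕ, B₀ ≤ B → ∃ x : Fin (n + 1) → L, x ≠ 0 ∧
      (∀ i, val (H i) x ≠ 0) ∧ MvPolynomial.aeval x F ≠ 0 ∧ logHeight x ≤ C * (B : ℝ) ^ 2 ∧
      2 * m * ((Fintype.card (InfinitePlace L) + T.card : ℕ) - 2 : ℝ) * Real.log B - C ≤
        -(n + 1) * logHeight x + Sm T (fun f => ∑ i, Real.log (nm f x / f (val (H i) x))) := by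
  classical
  obtain ⟨e, J, P, N, hJc, hJe, hP, hN, hJ0, N', hNN⟩ := exists_matrix H hH m hm hq
  set am := algebraMap k L with ham
  set HL : Fin q → Fin (n + 1) → L := fun i j => am (H i j) with hHL
  set NL : Matrix (Fin (n + 1)) (Fin (n + 1)) L := N.map am with hNL
  have hval : ∀ i (x : Fin (n + 1) → L), vl (HL i) x = val (H i) x := fun i x => rfl
  have hNvl : ∀ (u : Fin (n + 1) → L) l, vl (HL (e l)) (NL.mulVec u) = am (P l) * u l := by
    intro u l
    unfold vl Matrix.mulVec dotProduct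
    simp only [hHL, hNL, Matrix.map_apply, Finset.mul_sum]
    rw [Finset.sum_comm]
    have h1 : ∀ i, ∑ a, am (H (e l) a) * (am (N a i) * u i) =
        (if l = i then am (P l) else 0) * u i := by
      intro i
      have h2 := congrArg am (hN l i)
      rw [map_sum] at h2
      simp only [map_mul] at h2
      rw [show (if l = i then am (P l) else 0) = am (if l = i then P l else 0) by
        split_ifs <;> simp, ← h2, Finset.sum_mul]
      exact Finset.sum_congr rfl fun a _ => by ring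
    simp only [h1, ite_mul, zero_mul, Finset.sum_ite_eq, Finset.mem_univ, if_true]
  have hNJ : ∀ j ∈ J, vl (HL j) (NL.mulVec 1) = 0 := by
    intro j hj
    unfold vl Matrix.mulVec dotProduct
    simp only [hHL, hNL, Matrix.map_apply, Pi.one_apply, mul_one]
    have h2 := congrArg am (hJ0 j hj)
    rw [map_sum, map_zero] at h2
    simpa only [map_mul, map_sum] using h2
  have hNsurj : ∀ x : Fin (n + 1) → L, NL.mulVec ((N'.map am).mulVec x) = x := by
    intro x
    have : NL * N'.map am = 1 := by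
      rw [hNL, ← Matrix.map_mul, hNN, Matrix.map_one _ (map_zero am) (map_one am)]
    rw [Matrix.mulVec_mulVec, this, Matrix.one_mulVec]
  -- the polynomial
  set G1 : MvPolynomial (Fin (n + 1)) L := MvPolynomial.map am F *
    ∏ i, ∑ j, MvPolynomial.C (HL i j) * MvPolynomial.X j with hG1
  have hG1e : ∀ x : Fin (n + 1) → L, MvPolynomial.eval x G1 =
      MvPolynomial.aeval x F * ∏ i, val (H i) x := by
    intro x
    rw [hG1, map_mul, MvPolynomial.eval_map, map_prod]
    congr 1
    refine Finset.prod_congr rfl fun i _ => ?_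
    simp only [map_sum, map_mul, MvPolynomial.eval_C, MvPolynomial.eval_X]
    rfl
  have hG10 : G1 ≠ 0 := by
    rw [hG1]
    refine mul_ne_zero ?_ (Finset.prod_ne_zero_iff.2 fun i _ => ?_)
    · intro h
      exact hF (MvPolynomial.map_injective am am.injective (by rw [h, map_zero]))
    · intro h
      obtain ⟨j, hj⟩ := Function.ne_iff.1 (hH0 i)
      have h2 := congrArg (MvPolynomial.eval (Pi.single j (1 : L))) h
      simp only [map_sum, map_mul, MvPolynomial.eval_C, MvPolynomial.eval_X, map_zero] at h2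
      rw [Finset.sum_eq_single j (fun b _ hb => by rw [Pi.single_eq_of_ne hb, mul_zero])
        (fun h => absurd (Finset.mem_univ _) h), Pi.single_eq_same, mul_one] at h2
      exact hj ((map_eq_zero am).1 h2)
  set F' : MvPolynomial (Fin (n + 1)) L :=
    MvPolynomial.bind₁ (fun i => ∑ j, MvPolynomial.C (NL i j) * MvPolynomial.X j) G1 with hF'
  have hF'e : ∀ u : Fin (n + 1) → L, MvPolynomial.eval u F' =
      MvPolynomial.eval (NL.mulVec u) G1 := by
    intro u
    rw [← MvPolynomial.coe_aeval_eq_eval u, ← MvPolynomial.coe_aeval_eq_eval (NL.mulVec u)]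
    show MvPolynomial.aeval u F' = MvPolynomial.aeval (NL.mulVec u) G1
    rw [hF', MvPolynomial.aeval_bind₁]
    congr 2
    funext i
    simp only [map_sum, map_mul, MvPolynomial.aeval_C, MvPolynomial.aeval_X, Algebra.algebraMap_self,
      RingHom.id_apply]
    rfl
  have hF'0 : F' ≠ 0 := by
    intro h
    apply hG10
    refine MvPolynomial.funext fun x => ?_
    rw [map_zero, ← hNsurj x, ← hF'e, h, map_zero]
  obtain ⟨D, hD⟩ := exists_exp F' hF'0
  obtain ⟨w₀⟩ : Nonempty (InfinitePlace L) := inferInstance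
  obtain ⟨Ce, hCe⟩ := excess T w₀ HL e (fun l => am (P l)) (fun l => (map_ne_zero am).2 (hP l)) NL
    hNvl J hJe hNJ D
  obtain ⟨Cn, hCn0, B₁, hB₁0, hnear⟩ := near_one T w₀ hs
  set s : ℕ := Fintype.card (InfinitePlace L) + T.card with hsdef
  set η : ℝ := 1 / (D * 2 ^ D + 1) with hη
  have hη0 : 0 < η := by positivity
  have hη1 : η ≤ 1 := by
    rw [hη, div_le_one (by positivity)]
    have : (0 : ℝ) ≤ D * 2 ^ D := by positivity
    linarith
  obtain ⟨B₂, hB₂⟩ := exists_nat_gt (Cn / η ^ 2)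
  set C : ℝ := |Ce| + D * Cn + m * |Real.log Cn| + 1 with hC
  have hC0 : 0 < C := by positivity
  refine ⟨C, hC0, max B₁ (B₂ + 1), by omega, fun B hB => ?_⟩
  have hB1 : B₁ ≤ B := (le_max_left _ _).trans hB
  have hB2 : B₂ + 1 ≤ B := (le_max_right _ _).trans hB
  have hB0 : 0 < B := by omega
  have hBr : (1 : ℝ) ≤ B := by exact_mod_cast hB0
  have hBp : (0 : ℝ) < B := by linarith
  obtain ⟨y, hySU, hy1, hyh, hyw, hyb⟩ := hnear B hB1
  have hwpos : 0 < w₀ (1 - y) := w₀.pos_iff.2 (sub_ne_zero.2 (Ne.symm hy1))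
  -- `y` is very close to one
  have hysmall : w₀ (1 - y) < η := by
    by_contra hc
    push Not at hc
    have h1 : η ^ 2 ≤ w₀ (1 - y) ^ w₀.mult := by
      have hm2 : w₀.mult ≤ 2 := by
        unfold InfinitePlace.mult
        split_ifs <;> norm_num
      calc η ^ 2 ≤ η ^ w₀.mult := pow_le_pow_of_le_one hη0.le hη1 hm2
        _ ≤ w₀ (1 - y) ^ w₀.mult := pow_le_pow_left₀ hη0.le hc _
    have h2 : Cn / (B : ℝ) ^ (2 * (s - 2)) ≤ Cn / B := by
      refine div_le_div_of_nonneg_left hCn0.le hBp ?_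
      calc (B : ℝ) = (B : ℝ) ^ 1 := (pow_one _).symm
        _ ≤ (B : ℝ) ^ (2 * (s - 2)) := pow_le_pow_right₀ hBr (by omega)
    have h3 : η ^ 2 ≤ Cn / B := h1.trans (hyb.trans h2)
    rw [le_div_iff₀ hBp] at h3
    have h4 : (B₂ : ℝ) + 1 ≤ B := by exact_mod_cast hB2
    have h5 : Cn < B₂ * η ^ 2 := by
      rwa [div_lt_iff₀ (by positivity)] at hB₂
    have h6 : (B₂ : ℝ) * η ^ 2 ≤ η ^ 2 * B := by
      have : 0 < η ^ 2 := by positivity
      nlinarith
    linarith
  have hDsmall : w₀ (1 - y) * (D * 2 ^ D) < 1 := by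
    have h1 : w₀ (1 - y) * (D * 2 ^ D) ≤ w₀ (1 - y) * (D * 2 ^ D + 1) :=
      mul_le_mul_of_nonneg_left (by linarith) hwpos.le
    have h2 : w₀ (1 - y) * (D * 2 ^ D + 1) < η * (D * 2 ^ D + 1) :=
      mul_lt_mul_of_pos_right hysmall (by positivity)
    have h3 : η * (D * 2 ^ D + 1) = 1 := by
      rw [hη]
      field_simp
    linarith
  obtain ⟨b, hbD, hb⟩ := hD y hySU.1 fun c hc hcD =>
    not_root w₀ y D hy1 hyw hDsmall c hc hcD
  rw [hF'e, hG1e] at hb
  have hHx : ∀ i, val (H i) (NL.mulVec fun i => y ^ b i) ≠ 0 := fun i =>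
    Finset.prod_ne_zero_iff.1 (right_ne_zero_of_mul hb) i (Finset.mem_univ i)
  have hqpos : 0 < q := by omega
  obtain ⟨h1, h2⟩ := hCe y hySU hy1 hyw b hbD hHx
  refine ⟨NL.mulVec fun i => y ^ b i, ?_, hHx, left_ne_zero_of_mul hb, ?_, ?_⟩
  · intro h0
    apply hHx ⟨0, hqpos⟩
    rw [h0]
    simp [val]
  · have h3 : (D : ℝ) * logHeight₁ y ≤ D * (Cn * (B : ℝ) ^ 2) :=
      mul_le_mul_of_nonneg_left hyh (Nat.cast_nonneg _)
    have h4 : (1 : ℝ) ≤ (B : ℝ) ^ 2 := one_le_pow₀ hBr
    have h5 := le_abs_self Ce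
    have h6 : |Ce| ≤ |Ce| * (B : ℝ) ^ 2 := le_mul_of_one_le_right (abs_nonneg _) h4
    have h7 : 0 ≤ (m * |Real.log Cn| + 1) * (B : ℝ) ^ 2 := by positivity
    have h8 : C * (B : ℝ) ^ 2 = |Ce| * (B : ℝ) ^ 2 + D * (Cn * (B : ℝ) ^ 2) +
        (m * |Real.log Cn| + 1) * (B : ℝ) ^ 2 := by rw [hC]; ring
    linarith
  · have h3 : Real.log (w₀ (1 - y) ^ w₀.mult) ≤
        Real.log Cn - 2 * ((s : ℕ) - 2 : ℝ) * Real.log B := by
      have h4 := Real.log_le_log (pow_pos hwpos _) hyb
      rw [Real.log_div hCn0.ne' (by positivity),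
        show Real.log ((B : ℝ) ^ (2 * (s - 2))) = ((2 * (s - 2) : ℕ) : ℝ) * Real.log B from
          Real.log_pow _ _] at h4
      have h5 : ((2 * (s - 2) : ℕ) : ℝ) = 2 * ((s : ℕ) - 2 : ℝ) := by
        rw [Nat.cast_mul, Nat.cast_sub (by omega)]
        norm_num
      rw [h5] at h4
      exact h4
    have h4 : (m : ℝ) * Real.log (w₀ (1 - y) ^ w₀.mult) ≤
        m * (Real.log Cn - 2 * ((s : ℕ) - 2 : ℝ) * Real.log B) :=
      mul_le_mul_of_nonneg_left h3 (Nat.cast_nonneg _)
    rw [hJc] at h2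
    have h5 := le_abs_self Ce
    have h6 : (m : ℝ) * Real.log Cn ≤ m * |Real.log Cn| :=
      mul_le_mul_of_nonneg_left (le_abs_self _) (Nat.cast_nonneg _)
    have h7 : (0 : ℝ) ≤ D * Cn := by positivity
    refine le_trans ?_ h2
    rw [hC]
    linarith

end Pool.Agent.K4H7.ET
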