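import Mathlib

set_option autoImplicit false
set_option maxHeartbeats 400000

/-!
Primes of an extension in which an element is highly divisible.
-/

namespace Pool.Agent.K4H7.ET

open NumberField IsDedekindDomain Polynomial

/-- an auxiliary prime -/
lemma aux_prime {k : Type} [Field k] [NumberField k] (S : Finset (HeightOneSpectrum (𝓞 k))) :
    ∃ (l : ℕ) (Q : HeightOneSpectrum (𝓞 k)), l.Prime ∧ (l : 𝓞 k) ∈ Q.asIdeal ∧
      ∀ v ∈ S, (l : 𝓞 k) ∉ v.asIdeal := by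
  classical
  obtain ⟨l, hl, hlp⟩ := Nat.exists_infinite_primes (∏ v ∈ S, Ideal.absNorm v.asIdeal + 1)
  have hn0 : ∀ v : HeightOneSpectrum (𝓞 k), Ideal.absNorm v.asIdeal ≠ 0 := fun v =>
    Ideal.absNorm_ne_zero_iff_mem_nonZeroDivisors.2 (mem_nonZeroDivisors_iff_ne_zero.2 v.ne_bot)
  have : Fact l.Prime := ⟨hlp⟩
  have hlp' : Prime (l : ℤ) := Nat.prime_iff_prime_int.1 hlp
  have hmax : (Ideal.span {(l : ℤ)}).IsMaximal := by
    have hpr : (Ideal.span {(l : ℤ)}).IsPrime :=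
      (Ideal.span_singleton_prime hlp'.ne_zero).2 hlp'
    exact hpr.isMaximal (by
      rw [Ne, Ideal.span_singleton_eq_bot]
      exact hlp'.ne_zero)
  obtain ⟨Q, hQm, hQ⟩ := Ideal.exists_ideal_over_maximal_of_isIntegral (S := 𝓞 k)
    (Ideal.span {(l : ℤ)}) (by
      rw [(RingHom.injective_iff_ker_eq_bot _).1 (algebraMap ℤ (𝓞 k)).injective_int]
      exact bot_le)
  have hlQ : (l : 𝓞 k) ∈ Q := by
    have h1 : (l : ℤ) ∈ Q.comap (algebraMap ℤ (𝓞 k)) := by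
      rw [hQ]
      exact Ideal.mem_span_singleton_self _
    simpa using h1
  have hQ0 : Q ≠ ⊥ := by
    rintro rfl
    rw [Ideal.mem_bot] at hlQ
    exact hlp.ne_zero (by exact_mod_cast hlQ)
  refine ⟨l, ⟨Q, hQm.isPrime, hQ0⟩, hlp, hlQ, fun v hv hlv => ?_⟩
  have h1 : Ideal.absNorm v.asIdeal < l := by
    have h2 : Ideal.absNorm v.asIdeal ≤ ∏ v ∈ S, Ideal.absNorm v.asIdeal :=
      Nat.le_of_dvd (Nat.pos_of_ne_zero (Finset.prod_ne_zero_iff.2 fun v _ => hn0 v))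
        (Finset.dvd_prod_of_mem _ hv)
    omega
  have h3 : Nat.Coprime (Ideal.absNorm v.asIdeal) l := by
    rw [Nat.coprime_comm, Nat.Prime.coprime_iff_not_dvd hlp]
    exact fun h => absurd (Nat.le_of_dvd (Nat.pos_of_ne_zero (hn0 v)) h) (by omega)
  have h4 : IsCoprime ((Ideal.absNorm v.asIdeal : ℕ) : 𝓞 k) (l : 𝓞 k) := h3.cast
  obtain ⟨a, b, hab⟩ := h4
  apply v.isPrime.ne_top
  rw [Ideal.eq_top_iff_one, ← hab]
  exact v.asIdeal.add_mem (v.asIdeal.mul_mem_left _ (Ideal.absNorm_mem _))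
    (v.asIdeal.mul_mem_left _ hlv)

/-- an element divisible by high powers of given primes, exactly divisible by another one -/
lemma aux_elt {k : Type} [Field k] [NumberField k] (S : Finset (HeightOneSpectrum (𝓞 k)))
    (Q : HeightOneSpectrum (𝓞 k)) (hQ : Q ∉ S) (M : ℕ) :
    ∃ b : 𝓞 k, b ∈ Q.asIdeal ∧ b ∉ Q.asIdeal ^ 2 ∧ ∀ v ∈ S, b ∈ v.asIdeal ^ M := by
  classical
  set J : Ideal (𝓞 k) := ∏ v ∈ S, v.asIdeal ^ M with hJ
  have h1 : ¬ (Q.asIdeal * J ≤ Q.asIdeal ^ 2) := by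
    intro h
    have h2 : Q.asIdeal * Q.asIdeal ∣ Q.asIdeal * J := by
      rw [← pow_two]
      exact Ideal.dvd_iff_le.2 h
    have h3 : Q.asIdeal ∣ J := (mul_dvd_mul_iff_left Q.ne_bot).1 h2
    obtain ⟨v, hv, hvQ⟩ := (Prime.dvd_finsetProd_iff Q.prime _).1 h3
    have h4 : Q.asIdeal ∣ v.asIdeal := Q.prime.dvd_of_dvd_pow hvQ
    have h5 : v.asIdeal = Q.asIdeal := v.isMaximal.eq_of_le Q.isPrime.ne_top (Ideal.dvd_iff_le.1 h4)
    exact hQ (by rwa [HeightOneSpectrum.ext h5] at hv)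
  obtain ⟨b, hb, hb'⟩ := SetLike.not_le_iff_exists.1 h1
  refine ⟨b, Ideal.mul_le_left hb, hb', fun v hv => ?_⟩
  have h2 : J ≤ v.asIdeal ^ M := Ideal.dvd_iff_le.1 (Finset.dvd_prod_of_mem _ hv)
  exact h2 (Ideal.mul_le_right hb)

/-- the existence of a prime at which `a` is more divisible than `d` -/
lemma exists_prime_above {k L : Type} [Field k] [NumberField k] [Field L] [NumberField L]
    [Algebra k L] (v : HeightOneSpectrum (𝓞 k)) (M : ℕ) (d : 𝓞 k)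
    (hd : d ^ Module.finrank k L ∉ v.asIdeal ^ M) (a : 𝓞 L) (ha0 : a ≠ 0)
    (ha : RingOfIntegers.norm k a ∈ v.asIdeal ^ M) :
    ∃ w : HeightOneSpectrum (𝓞 L), w.asIdeal.LiesOver v.asIdeal ∧
      ∃ n : ℕ, a ∈ w.asIdeal ^ n ∧ algebraMap (𝓞 k) (𝓞 L) d ∉ w.asIdeal ^ n := by
  classical
  by_contra hc
  push Not at hc
  -- the denominators
  set I : Ideal (𝓞 L) := (Ideal.span {a} : Ideal (𝓞 L)).colon
    (Ideal.span {algebraMap (𝓞 k) (𝓞 L) d} : Ideal (𝓞 L)) with hI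
  have hImem : ∀ t, t ∈ I ↔ t * algebraMap (𝓞 k) (𝓞 L) d ∈ Ideal.span {a} := by
    intro t
    rw [hI, Ideal.mem_colon_span_singleton]
  have hnot : ¬ (I.comap (algebraMap (𝓞 k) (𝓞 L)) ≤ v.asIdeal) := by
    intro hle
    have := v.isPrime
    obtain ⟨P, hPI, hPp, hPv⟩ := Ideal.exists_ideal_over_prime_of_isIntegral v.asIdeal I hle
    have hP0 : P ≠ ⊥ := by
      rintro rfl
      apply v.ne_bot
      rw [← hPv]
      exact (RingHom.injective_iff_ker_eq_bot _).1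
        (FaithfulSMul.algebraMap_injective (𝓞 k) (𝓞 L))
    set w : HeightOneSpectrum (𝓞 L) := ⟨P, hPp, hP0⟩ with hw
    have hlie : w.asIdeal.LiesOver v.asIdeal := ⟨hPv.symm⟩
    have h1 := hc w hlie
    -- factor `a`
    have hspan0 : (Ideal.span {a} : Ideal (𝓞 L)) ≠ ⊥ := by
      rwa [Ne, Ideal.span_singleton_eq_bot]
    obtain ⟨n, J, hJ, hnJ⟩ : ∃ (n : ℕ) (J : Ideal (𝓞 L)), ¬ (J ≤ P) ∧ P ^ n * J = Ideal.span {a} := by
      have hfin : FiniteMultiplicity P (Ideal.span {a}) :=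
        FiniteMultiplicity.of_not_isUnit (by
          rw [Ideal.isUnit_iff]
          exact hPp.ne_top) hspan0
      obtain ⟨J, hJ1, hJ2⟩ := hfin.exists_eq_pow_mul_and_not_dvd
      exact ⟨_, J, fun h => hJ2 (Ideal.dvd_iff_le.2 h), hJ1.symm⟩
    obtain ⟨t, htJ, htP⟩ := SetLike.not_le_iff_exists.1 hJ
    have h2 : a ∈ P ^ n := by
      have : a ∈ P ^ n * J := by
        rw [hnJ]
        exact Ideal.mem_span_singleton_self a
      exact Ideal.mul_le_left this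
    have h3 : algebraMap (𝓞 k) (𝓞 L) d ∈ P ^ n := h1 n h2
    have h4 : t ∈ I := by
      rw [hImem, ← hnJ, mul_comm t]
      exact Ideal.mul_mem_mul h3 htJ
    exact htP (hPI h4)
  obtain ⟨s, hs, hsv⟩ := SetLike.not_le_iff_exists.1 hnot
  have hs' : algebraMap (𝓞 k) (𝓞 L) s ∈ I := hs
  rw [hImem, Ideal.mem_span_singleton] at hs'
  obtain ⟨y, hy⟩ := hs'
  have h1 : RingOfIntegers.norm k (algebraMap (𝓞 k) (𝓞 L) (s * d)) =
      RingOfIntegers.norm k a * RingOfIntegers.norm k y := by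
    rw [map_mul, hy, map_mul]
  rw [RingOfIntegers.norm_algebraMap, mul_pow] at h1
  have h2 : s ^ Module.finrank k L * d ^ Module.finrank k L ∈ v.asIdeal ^ M := by
    rw [h1]
    exact Ideal.mul_mem_right _ _ ha
  have := v.isPrime
  rcases Ideal.IsPrime.mul_mem_pow v.asIdeal h2 with h3 | h3
  · exact hsv (v.isPrime.mem_of_pow_mem _ h3)
  · exact hd h3

end Pool.Agent.K4H7.ET
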