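import Pool.Agent.K4H7.ET.X1

set_option autoImplicit false
set_option maxHeartbeats 400000

/-!
The polynomial `∏ (X - (i + 1) R) + b`.
-/

namespace Pool.Agent.K4H7.ET

open NumberField IsDedekindDomain Polynomial

/-- the polynomial -/
noncomputable def pol {A : Type} [CommRing A] (r : ℕ) (R b : A) : A[X] :=
  ∏ i ∈ Finset.range r, (X - C (((i + 1 : ℕ) : A) * R)) + C b

lemma pol_eval {A : Type} [CommRing A] (r : ℕ) (R b x : A) :
    eval x (pol r R b) = ∏ i ∈ Finset.range r, (x - ((i + 1 : ℕ) : A) * R) + b := by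
  unfold pol
  rw [eval_add, eval_prod, eval_C]
  simp only [eval_sub, eval_X, eval_C]

lemma pol_map {A B : Type} [CommRing A] [CommRing B] (f : A →+* B) (r : ℕ) (R b : A) :
    (pol r R b).map f = pol r (f R) (f b) := by
  unfold pol
  rw [Polynomial.map_add, Polynomial.map_prod, Polynomial.map_C]
  refine congrArg (· + C (f b)) (Finset.prod_congr rfl fun i _ => ?_)
  rw [Polynomial.map_sub, Polynomial.map_X, Polynomial.map_C, _root_.map_mul, map_natCast]

lemma pol_eval_node {A : Type} [CommRing A] (r : ℕ) (R b : A) (i : ℕ) (hi : i < r) :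
    eval (((i + 1 : ℕ) : A) * R) (pol r R b) = b := by
  rw [pol_eval, Finset.prod_eq_zero (Finset.mem_range.2 hi) (sub_self _), zero_add]

lemma pol_deg {A : Type} [CommRing A] [Nontrivial A] (r : ℕ) (hr : 0 < r) (R b : A) :
    (pol r R b).natDegree = r ∧ (pol r R b).Monic := by
  have h1 : (∏ i ∈ Finset.range r, (X - C (((i + 1 : ℕ) : A) * R))).Monic :=
    monic_prod_of_monic _ _ fun i _ => monic_X_sub_C _
  have h2 : (∏ i ∈ Finset.range r, (X - C (((i + 1 : ℕ) : A) * R))).natDegree = r := by
    rw [natDegree_prod_of_monic _ _ fun i _ => monic_X_sub_C _]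
    simp only [natDegree_X_sub_C, Finset.sum_const, Finset.card_range, smul_eq_mul, mul_one]
  have h3 : (C b).degree < (∏ i ∈ Finset.range r, (X - C (((i + 1 : ℕ) : A) * R))).degree := by
    refine lt_of_le_of_lt degree_C_le ?_
    rw [← natDegree_pos_iff_degree_pos, h2]
    exact hr
  refine ⟨?_, ?_⟩
  · unfold pol
    rw [natDegree_add_eq_left_of_degree_lt h3, h2]
  · unfold pol
    exact h1.add_of_left h3

/-- real roots -/
lemma real_roots (r : ℕ) (R β : ℝ) (hR : 0 < R) (hβ : |β| < (R / 2) ^ r) :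
    ∃ ρ : Fin r → ℝ, Function.Injective ρ ∧ ∀ i, eval (ρ i) (pol r R β) = 0 := by
  set x : ℕ → ℝ := fun m => ((m : ℝ) + 1 / 2) * R with hx
  have hfac : ∀ m i : ℕ, R / 2 ≤ |x m - ((i + 1 : ℕ) : ℝ) * R| := by
    intro m i
    have h1 : x m - ((i + 1 : ℕ) : ℝ) * R = ((m : ℝ) - i - 1 / 2) * R := by
      simp only [hx]
      push_cast
      ring
    rw [h1, abs_mul, abs_of_pos hR]
    have h2 : (1 : ℝ) / 2 ≤ |(m : ℝ) - i - 1 / 2| := by
      rcases lt_or_ge i m with h | h
      · have : (i : ℝ) + 1 ≤ m := by exact_mod_cast h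
        exact le_trans (by linarith) (le_abs_self _)
      · have : (m : ℝ) ≤ i := by exact_mod_cast h
        exact le_trans (by linarith) (neg_le_abs _)
    have h3 := mul_le_mul_of_nonneg_right h2 hR.le
    linarith
  set g : ℝ → ℝ := fun t => ∏ i ∈ Finset.range r, (t - ((i + 1 : ℕ) : ℝ) * R) with hg
  have hgabs : ∀ m : ℕ, (R / 2) ^ r ≤ |g (x m)| := by
    intro m
    simp only [hg, Finset.abs_prod]
    calc (R / 2) ^ r = ∏ _i ∈ Finset.range r, (R / 2) := by
          rw [Finset.prod_const, Finset.card_range]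
      _ ≤ _ := Finset.prod_le_prod (fun _ _ => by positivity) fun i _ => hfac m i
  have hgsign : ∀ m : ℕ, m < r → g (x m) * g (x (m + 1)) < 0 := by
    intro m hm
    simp only [hg]
    rw [← Finset.prod_mul_distrib, ← Finset.mul_prod_erase _ _ (Finset.mem_range.2 hm)]
    refine mul_neg_of_neg_of_pos ?_ (Finset.prod_pos fun i hi => ?_)
    · have h1 : (x m - ((m + 1 : ℕ) : ℝ) * R) * (x (m + 1) - ((m + 1 : ℕ) : ℝ) * R) =
          -(R ^ 2 / 4) := by
        simp only [hx]
        push_cast
        ring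
      rw [h1]
      have : 0 < R ^ 2 := by positivity
      linarith
    · have him : i ≠ m := (Finset.mem_erase.1 hi).1
      have h1 : (x m - ((i + 1 : ℕ) : ℝ) * R) * (x (m + 1) - ((i + 1 : ℕ) : ℝ) * R) =
          (((m : ℝ) - i - 1 / 2) * ((m : ℝ) - i + 1 / 2)) * R ^ 2 := by
        simp only [hx]
        push_cast
        ring
      rw [h1]
      refine mul_pos ?_ (by positivity)
      rcases lt_or_gt_of_ne him with h | h
      · have : (i : ℝ) + 1 ≤ m := by exact_mod_cast h
        exact mul_pos (by linarith) (by linarith)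
      · have : (m : ℝ) + 1 ≤ i := by exact_mod_cast h
        exact mul_pos_of_neg_of_neg (by linarith) (by linarith)
  have hcont : Continuous fun t => eval t (pol r R β) := (pol r R β).continuous
  have hroot : ∀ m : ℕ, m < r → ∃ t ∈ Set.Icc (x m) (x (m + 1)), eval t (pol r R β) = 0 := by
    intro m hm
    have hle : x m ≤ x (m + 1) := by
      simp only [hx]
      push_cast
      nlinarith
    have h1 := hgabs m
    have h2 := hgabs (m + 1)
    have h3 := hgsign m hm
    have he : ∀ t, eval t (pol r R β) = g t + β := fun t => pol_eval r R β t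
    have h4 := abs_lt.1 hβ
    rcases lt_or_ge (g (x m)) 0 with h5 | h5
    · have h6 : 0 < g (x (m + 1)) := by
        by_contra hc
        push Not at hc
        exact absurd (mul_nonneg_of_nonpos_of_nonpos h5.le hc) (not_le.2 h3)
      rw [abs_of_neg h5] at h1
      rw [abs_of_pos h6] at h2
      have h7 : (0 : ℝ) ∈ Set.Icc (eval (x m) (pol r R β)) (eval (x (m + 1)) (pol r R β)) := by
        rw [he, he]
        constructor <;> linarith
      obtain ⟨t, ht, ht0⟩ := intermediate_value_Icc hle hcont.continuousOn h7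
      exact ⟨t, ht, ht0⟩
    · have h6 : g (x (m + 1)) < 0 := by
        by_contra hc
        push Not at hc
        exact absurd (mul_nonneg h5 hc) (not_le.2 h3)
      rw [abs_of_nonneg h5] at h1
      rw [abs_of_neg h6] at h2
      have h7 : (0 : ℝ) ∈ Set.Icc (eval (x (m + 1)) (pol r R β)) (eval (x m) (pol r R β)) := by
        rw [he, he]
        constructor <;> linarith
      obtain ⟨t, ht, ht0⟩ := intermediate_value_Icc' hle hcont.continuousOn h7
      exact ⟨t, ht, ht0⟩
  have hne : ∀ m, eval (x m) (pol r R β) ≠ 0 := by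
    intro m h
    rw [pol_eval] at h
    have h1 : g (x m) = -β := by
      have : g (x m) + β = 0 := h
      linarith
    have h2 := hgabs m
    rw [h1, abs_neg] at h2
    linarith
  choose! t ht using hroot
  have hmono : ∀ i j : ℕ, i < j → j < r → t i < t j := by
    intro i j hij hj
    have h1 := ht i (hij.trans hj)
    have h2 := ht j hj
    have h3 : t i < x (i + 1) :=
      lt_of_le_of_ne h1.1.2 fun h => hne (i + 1) (by rw [← h]; exact h1.2)
    have h4 : x (i + 1) ≤ x j := by
      simp only [hx]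
      have : ((i + 1 : ℕ) : ℝ) ≤ j := by exact_mod_cast hij
      nlinarith
    exact h3.trans_le (h4.trans h2.1.1)
  refine ⟨fun i => t i, fun i j hij => ?_, fun i => (ht i i.2).2⟩
  simp only at hij
  rcases lt_trichotomy (i : ℕ) j with h | h | h
  · exact absurd hij (hmono i j h j.2).ne
  · exact Fin.ext h
  · exact absurd hij.symm (hmono j i h i.2).ne

/-- irreducibility -/
lemma pol_irr {k : Type} [Field k] [NumberField k] (Q : HeightOneSpectrum (𝓞 k)) (r : ℕ)
    (hr : 0 < r) (R b : 𝓞 k) (hR : R ∈ Q.asIdeal ^ 2) (hb : b ∈ Q.asIdeal)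
    (hb2 : b ∉ Q.asIdeal ^ 2) : Irreducible ((pol r R b).map (algebraMap (𝓞 k) k)) := by
  obtain ⟨hdeg, hmon⟩ := pol_deg r hr R b
  rw [← hmon.irreducible_iff_irreducible_map_fraction_map]
  have hRQ : R ∈ Q.asIdeal := Ideal.pow_le_self two_ne_zero hR
  have hE : (pol r R b).IsEisensteinAt Q.asIdeal := by
    refine hmon.isEisensteinAt_of_mem_of_notMem Q.isPrime.ne_top (fun {i} hi => ?_) ?_
    · have h1 : (pol r R b).map (Ideal.Quotient.mk Q.asIdeal) = X ^ r := by
        rw [pol_map, Ideal.Quotient.eq_zero_iff_mem.2 hRQ, Ideal.Quotient.eq_zero_iff_mem.2 hb]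
        unfold pol
        simp
      rw [← Ideal.Quotient.eq_zero_iff_mem, ← coeff_map, h1, coeff_X_pow, if_neg]
      rw [hdeg] at hi
      exact hi.ne
    · rw [coeff_zero_eq_eval_zero, pol_eval]
      intro h
      apply hb2
      have h2 : ∏ i ∈ Finset.range r, (0 - ((i + 1 : ℕ) : 𝓞 k) * R) ∈ Q.asIdeal ^ 2 := by
        rw [← Finset.mul_prod_erase _ _ (Finset.mem_range.2 hr)]
        refine Ideal.mul_mem_right _ _ ?_
        rw [zero_sub]
        exact (Q.asIdeal ^ 2).neg_mem (Ideal.mul_mem_left _ _ hR)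
      have h3 := (Q.asIdeal ^ 2).sub_mem h h2
      rwa [add_sub_cancel_left] at h3
  exact hE.irreducible Q.isPrime hmon.isPrimitive (by rw [hdeg]; exact hr)

end Pool.Agent.K4H7.ET
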