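import Pool.Agent.K4H7.ET.X2

set_option autoImplicit false
set_option maxHeartbeats 400000

/-!
Extensions with many places above a given set of places.
-/

namespace Pool.Agent.K4H7.ET

open NumberField IsDedekindDomain Polynomial

/-- the norm of `c - θ` -/
lemma norm_sub {k L : Type} [Field k] [Field L] [Algebra k L] [FiniteDimensional k L] (θ : L)
    (c : k) (g : k[X]) (hg : g.Monic) (hirr : Irreducible g) (hθ : aeval θ g = 0)
    (hdeg : g.natDegree = Module.finrank k L) :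
    Algebra.norm k (algebraMap k L c - θ) = g.eval c := by
  set χ := (Algebra.lmul k L θ).charpoly with hχ
  have h1 : aeval θ χ = 0 := Algebra.aeval_self_charpoly_lmul θ
  have h2 : χ.Monic := LinearMap.charpoly_monic _
  have h3 : χ.natDegree = Module.finrank k L := LinearMap.charpoly_natDegree _
  have h4 : g = minpoly k θ := minpoly.eq_of_irreducible_of_monic hirr hθ hg
  have h5 : g ∣ χ := by
    rw [h4]
    exact minpoly.dvd k θ h1
  have h6 : χ = g := eq_of_monic_of_dvd_of_natDegree_le hg h2 h5 (by rw [h3, hdeg])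
  rw [← h6, hχ, LinearMap.eval_charpoly, Algebra.norm_apply, map_sub]
  congr 1
  congr 1
  ext x
  simp [Algebra.smul_def]

/-- extensions of a complex embedding -/
lemma exts {k L : Type} [Field k] [NumberField k] [Field L] [NumberField L] [Algebra k L]
    (r : ℕ) (hr : Module.finrank k L = r) (φ : k →+* ℂ) :
    ∃ Φ : Fin r → (L →+* ℂ), Function.Injective Φ ∧ ∀ i, (Φ i).comp (algebraMap k L) = φ := by
  classical
  letI : Algebra k ℂ := φ.toAlgebra
  have h1 : Fintype.card (L →ₐ[k] ℂ) = r := by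
    rw [AlgHom.card k L ℂ, hr]
  have e : Fin r ≃ (L →ₐ[k] ℂ) := (Fintype.equivFinOfCardEq h1).symm
  refine ⟨fun i => (e i : L →ₐ[k] ℂ).toRingHom, fun i j hij => ?_, fun i => ?_⟩
  · apply e.injective
    ext x
    exact congrArg (fun f : L →+* ℂ => f x) hij
  · ext x
    exact (e i).commutes x

/-- many infinite places -/
lemma inf_places {k L : Type} [Field k] [NumberField k] [Field L] [NumberField L] [Algebra k L]
    (r : ℕ) (hrL : Module.finrank k L = r) (R : ℕ) (hR : 0 < R) (b : k)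
    (hb : ∀ φ : k →+* ℂ, ‖φ b‖ < ((R : ℝ) / 2) ^ r) (θ : L)
    (hlift : ∀ (φ : k →+* ℂ) (z : ℂ), eval z (pol r (R : ℂ) (φ b)) = 0 →
      ∃ Φ : L →+* ℂ, Φ.comp (algebraMap k L) = φ ∧ Φ θ = z)
    (hext : ∀ Φ Ψ : L →+* ℂ, Φ.comp (algebraMap k L) = Ψ.comp (algebraMap k L) → Φ θ = Ψ θ →
      Φ = Ψ) :
    r * Fintype.card (InfinitePlace k) ≤ Fintype.card (InfinitePlace L) := by
  classical
  have hkey : ∀ v : InfinitePlace k, ∃ Φ : Fin r → (L →+* ℂ), Function.Injective Φ ∧
      (∀ i, (Φ i).comp (algebraMap k L) = v.embedding) ∧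
      (ComplexEmbedding.IsReal v.embedding → ∀ i, ComplexEmbedding.conjugate (Φ i) = Φ i) := by
    intro v
    by_cases hv : ComplexEmbedding.IsReal v.embedding
    · set β : ℝ := (v.embedding b).re with hβ
      have hβ' : v.embedding b = (β : ℂ) := by
        have h1 : (starRingEnd ℂ) (v.embedding b) = v.embedding b := by
          have h2 := ComplexEmbedding.isReal_iff.1 hv
          exact congrArg (fun f : k →+* ℂ => f b) h2
        rw [hβ]
        exact (Complex.conj_eq_iff_re.1 h1).symm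
      have hβn : |β| < ((R : ℝ) / 2) ^ r := by
        have h1 := hb v.embedding
        rwa [hβ', Complex.norm_real, Real.norm_eq_abs] at h1
      obtain ⟨ρ, hρ, hρ0⟩ := real_roots r R β (by exact_mod_cast hR) hβn
      have hz : ∀ i, eval ((ρ i : ℝ) : ℂ) (pol r (R : ℂ) (v.embedding b)) = 0 := by
        intro i
        have h1 := congrArg (Complex.ofReal : ℝ → ℂ) (hρ0 i)
        rw [pol_eval] at h1
        rw [pol_eval, hβ']
        push_cast at h1 ⊢
        exact h1
      choose Φ hΦ hΦθ using fun i => hlift v.embedding _ (hz i)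
      refine ⟨Φ, fun i j hij => hρ ?_, hΦ, fun _ i => ?_⟩
      · have h1 : ((ρ i : ℝ) : ℂ) = (ρ j : ℝ) := by rw [← hΦθ i, ← hΦθ j, hij]
        exact_mod_cast h1
      · apply hext
        · have h1 : (ComplexEmbedding.conjugate (Φ i)).comp (algebraMap k L) =
              ComplexEmbedding.conjugate ((Φ i).comp (algebraMap k L)) := rfl
          rw [h1, hΦ i]
          exact ComplexEmbedding.isReal_iff.1 hv
        · rw [ComplexEmbedding.conjugate_coe_eq, hΦθ i, Complex.conj_ofReal]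
    · obtain ⟨Φ, hΦ, hΦ'⟩ := exts (L := L) r hrL v.embedding
      exact ⟨Φ, hΦ, hΦ', fun h => absurd h hv⟩
  choose Φ hΦi hΦ hΦr using hkey
  have hinj : Function.Injective (fun p : Fin r × InfinitePlace k =>
      InfinitePlace.mk (Φ p.2 p.1)) := by
    rintro ⟨i, v⟩ ⟨j, w⟩ h
    simp only at h
    rcases InfinitePlace.mk_eq_iff.1 h with h1 | h1
    · have h2 : v = w := by
        have h3 : v.embedding = w.embedding := by rw [← hΦ v i, ← hΦ w j, h1]
        rw [← v.mk_embedding, ← w.mk_embedding, h3]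
      subst h2
      rw [hΦi v h1]
    · have h3 : ComplexEmbedding.conjugate v.embedding = w.embedding := by
        rw [← hΦ v i, ← hΦ w j, ← h1]
        rfl
      have h2 : v = w := by
        rw [← v.mk_embedding, ← w.mk_embedding]
        exact InfinitePlace.mk_eq_iff.2 (Or.inr h3)
      subst h2
      have h4 := hΦr v (ComplexEmbedding.isReal_iff.2 h3) i
      rw [h4] at h1
      rw [hΦi v h1]
  have h := Fintype.card_le_of_injective _ hinj
  rwa [Fintype.card_prod, Fintype.card_fin] at h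

/-- many primes -/
lemma fin_places {k L : Type} [Field k] [NumberField k] [Field L] [NumberField L] [Algebra k L]
    (r : ℕ) (hrL : Module.finrank k L = r) (R b : 𝓞 k) (M : ℕ)
    (S : Finset (HeightOneSpectrum (𝓞 k))) (hR : ∀ v ∈ S, R ∉ v.asIdeal) (hb0 : b ≠ 0)
    (hb : ∀ v ∈ S, b ∈ v.asIdeal ^ M)
    (hM : ∀ v ∈ S, ((r.factorial : ℕ) : 𝓞 k) ^ r ∉ v.asIdeal ^ M) (θ : 𝓞 L)
    (hθ : ∀ i : ℕ, i < r → RingOfIntegers.norm k
      (algebraMap (𝓞 k) (𝓞 L) (((i + 1 : ℕ) : 𝓞 k) * R) - θ) = b) :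
    ∃ T : Finset (HeightOneSpectrum (𝓞 L)),
        (∀ w ∈ T, ∃ v ∈ S, w.asIdeal.LiesOver v.asIdeal) ∧ r * S.card ≤ T.card := by
  classical
  have hkey : ∀ (v : S) (i : Fin r), ∃ w : HeightOneSpectrum (𝓞 L),
      w.asIdeal.LiesOver v.1.asIdeal ∧ ∃ n : ℕ,
        algebraMap (𝓞 k) (𝓞 L) ((((i : ℕ) + 1 : ℕ) : 𝓞 k) * R) - θ ∈ w.asIdeal ^ n ∧
        algebraMap (𝓞 k) (𝓞 L) ((r.factorial : ℕ) : 𝓞 k) ∉ w.asIdeal ^ n := by
    intro v i
    refine exists_prime_above v.1 M _ (by rw [hrL]; exact hM v.1 v.2) _ ?_ ?_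
    · intro h
      have h1 := hθ i i.2
      rw [h] at h1
      apply hb0
      rw [← h1]
      apply RingOfIntegers.ext
      rw [RingOfIntegers.coe_norm]
      simp [Algebra.norm_zero]
    · rw [hθ i i.2]
      exact hb v.1 v.2
  choose w hw n hn hn' using hkey
  have hover : ∀ (v v' : S) (P : Ideal (𝓞 L)), P.LiesOver v.1.asIdeal → P.LiesOver v'.1.asIdeal →
      v = v' := by
    intro v v' P h h'
    apply Subtype.ext
    apply HeightOneSpectrum.ext
    rw [h.over, h'.over]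
  have hpos : ∀ (v : S) (i j : Fin r), (i : ℕ) < j → w v i ≠ w v j := by
    intro v i j hij h
    set P := w v i with hP
    set l := min (n v i) (n v j) with hl
    have h1 : algebraMap (𝓞 k) (𝓞 L) ((((i : ℕ) + 1 : ℕ) : 𝓞 k) * R) - θ ∈ P.asIdeal ^ l :=
      Ideal.pow_le_pow_right (min_le_left _ _) (hn v i)
    have h2 : algebraMap (𝓞 k) (𝓞 L) ((((j : ℕ) + 1 : ℕ) : 𝓞 k) * R) - θ ∈ P.asIdeal ^ l := by
      rw [h]
      exact Ideal.pow_le_pow_right (min_le_right _ _) (hn v j)
    have h3 : algebraMap (𝓞 k) (𝓞 L) ((r.factorial : ℕ) : 𝓞 k) ∉ P.asIdeal ^ l := by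
      rcases min_choice (n v i) (n v j) with h4 | h4
      · rw [hl, h4]
        exact hn' v i
      · rw [hl, h4, h]
        exact hn' v j
    have h4 := (P.asIdeal ^ l).sub_mem h2 h1
    have h5 : algebraMap (𝓞 k) (𝓞 L) ((((j : ℕ) + 1 : ℕ) : 𝓞 k) * R) - θ -
        (algebraMap (𝓞 k) (𝓞 L) ((((i : ℕ) + 1 : ℕ) : 𝓞 k) * R) - θ) =
        (((j : ℕ) - i : ℕ) : 𝓞 L) * algebraMap (𝓞 k) (𝓞 L) R := by
      rw [Nat.cast_sub hij.le]
      simp only [map_mul, map_natCast]
      push_cast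
      ring
    rw [h5] at h4
    have h6 : ((j : ℕ) - i : ℕ) ∣ r.factorial :=
      Nat.dvd_factorial (by omega) (by have := j.2; omega)
    obtain ⟨c, hc⟩ := h6
    have h7 : algebraMap (𝓞 k) (𝓞 L) R * algebraMap (𝓞 k) (𝓞 L) ((r.factorial : ℕ) : 𝓞 k) ∈
        P.asIdeal ^ l := by
      have h8 : algebraMap (𝓞 k) (𝓞 L) R * algebraMap (𝓞 k) (𝓞 L) ((r.factorial : ℕ) : 𝓞 k) =
          (c : 𝓞 L) * ((((j : ℕ) - i : ℕ) : 𝓞 L) * algebraMap (𝓞 k) (𝓞 L) R) := by
        rw [map_natCast, hc, Nat.cast_mul]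
        ring
      rw [h8]
      exact Ideal.mul_mem_left _ _ h4
    have := P.isPrime
    rcases Ideal.IsPrime.mul_mem_pow P.asIdeal h7 with h8 | h8
    · apply hR v.1 v.2
      rw [(hw v i).over]
      exact h8
    · exact h3 h8
  have hinj : Function.Injective (fun p : Fin r × S => w p.2 p.1) := by
    rintro ⟨i, v⟩ ⟨j, v'⟩ h
    simp only at h
    have h1 : v = v' := hover v v' (w v i).asIdeal (hw v i) (by rw [h]; exact hw v' j)
    subst h1
    rcases lt_trichotomy (i : ℕ) j with h2 | h2 | h2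
    · exact absurd h (hpos v i j h2)
    · rw [Fin.ext h2]
    · exact absurd h.symm (hpos v j i h2)
  refine ⟨Finset.univ.image (fun p : Fin r × S => w p.2 p.1), ?_, ?_⟩
  · intro u hu
    obtain ⟨p, _, rfl⟩ := Finset.mem_image.1 hu
    exact ⟨p.2.1, p.2.2, hw p.2 p.1⟩
  · rw [Finset.card_image_of_injective _ hinj, Finset.card_univ, Fintype.card_prod,
      Fintype.card_fin, Fintype.card_coe]

end Pool.Agent.K4H7.ET
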