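import Pool.Agent.K4H7.ET.X3

set_option autoImplicit false
set_option maxHeartbeats 400000

/-!
For every finite set of places there are extensions of every degree in which all of them split
completely.
-/

namespace Pool.Agent.K4H7.ET

open NumberField IsDedekindDomain Polynomial

lemma exists_not_mem_pow {k : Type} [Field k] [NumberField k] (v : HeightOneSpectrum (𝓞 k))
    (x : 𝓞 k) (hx : x ≠ 0) : ∃ M : ℕ, x ∉ v.asIdeal ^ M := by
  by_contra hc
  push Not at hc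
  apply hx
  have h1 : x ∈ ⨅ i : ℕ, v.asIdeal ^ i := (Ideal.mem_iInf).2 hc
  rwa [Ideal.iInf_pow_eq_bot_of_isDomain v.asIdeal v.isPrime.ne_top, Ideal.mem_bot] at h1

theorem exists_ext {k : Type} [Field k] [NumberField k] (S : Finset (HeightOneSpectrum (𝓞 k)))
    (r : ℕ) (hr : 0 < r) : ∃ (L : Type) (_ : Field L) (_ : NumberField L) (_ : Algebra k L),
      Module.finrank k L = r ∧ ∃ T : Finset (HeightOneSpectrum (𝓞 L)),
        (∀ w ∈ T, ∃ v ∈ S, w.asIdeal.LiesOver v.asIdeal) ∧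
        r * (Fintype.card (InfinitePlace k) + S.card) ≤
          Fintype.card (InfinitePlace L) + T.card := by
  classical
  obtain ⟨l, Q, hl, hlQ, hlS⟩ := aux_prime S
  have hQS : Q ∉ S := fun h => hlS Q h hlQ
  -- the exponent
  obtain ⟨M, hM⟩ : ∃ M : ℕ, ∀ v ∈ S, ((r.factorial : ℕ) : 𝓞 k) ^ r ∉ v.asIdeal ^ M := by
    have h0 : ((r.factorial : ℕ) : 𝓞 k) ^ r ≠ 0 :=
      pow_ne_zero _ (Nat.cast_ne_zero.2 (Nat.factorial_ne_zero r))
    choose m hm using fun v : HeightOneSpectrum (𝓞 k) => exists_not_mem_pow v _ h0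
    refine ⟨S.sup m, fun v hv h => hm v ?_⟩
    exact Ideal.pow_le_pow_right (Finset.le_sup hv) h
  obtain ⟨b, hbQ, hbQ2, hbS⟩ := aux_elt S Q hQS M
  have hb0 : b ≠ 0 := fun h => hbQ2 (by rw [h]; exact Ideal.zero_mem _)
  -- the step
  obtain ⟨N, hN2, hN⟩ : ∃ N : ℕ, 2 ≤ N ∧ ∀ φ : k →+* ℂ,
      ‖φ (b : k)‖ < (((l ^ N : ℕ) : ℝ) / 2) ^ r := by
    obtain ⟨N, hN⟩ := pow_unbounded_of_one_lt (2 * (∑ φ : k →+* ℂ, ‖φ (b : k)‖ + 1))
      (show (1 : ℝ) < l by exact_mod_cast hl.one_lt)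
    refine ⟨N + 2, by omega, fun φ => ?_⟩
    have h1 : ‖φ (b : k)‖ ≤ ∑ φ : k →+* ℂ, ‖φ (b : k)‖ :=
      Finset.single_le_sum (f := fun φ : k →+* ℂ => ‖φ (b : k)‖) (fun _ _ => norm_nonneg _)
        (Finset.mem_univ φ)
    have h2 : (l : ℝ) ^ N ≤ (l : ℝ) ^ (N + 2) :=
      pow_le_pow_right₀ (by exact_mod_cast hl.one_lt.le) (by omega)
    have h0 : 0 ≤ ∑ φ : k →+* ℂ, ‖φ (b : k)‖ := Finset.sum_nonneg fun _ _ => norm_nonneg _
    have h3 : ∑ φ : k →+* ℂ, ‖φ (b : k)‖ + 1 < ((l ^ (N + 2) : ℕ) : ℝ) / 2 := by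
      push_cast
      linarith
    have h4 : ((l ^ (N + 2) : ℕ) : ℝ) / 2 ≤ (((l ^ (N + 2) : ℕ) : ℝ) / 2) ^ r :=
      le_self_pow₀ (by linarith) hr.ne'
    linarith
  have hlN : ((l ^ N : ℕ) : 𝓞 k) ∈ Q.asIdeal ^ 2 := by
    rw [Nat.cast_pow]
    exact Ideal.pow_le_pow_right hN2 (Ideal.pow_mem_pow hlQ N)
  have hlNS : ∀ v ∈ S, ((l ^ N : ℕ) : 𝓞 k) ∉ v.asIdeal := by
    intro v hv h
    rw [Nat.cast_pow] at h
    exact hlS v hv (v.isPrime.mem_of_pow_mem _ h)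
  set f : (𝓞 k)[X] := pol r ((l ^ N : ℕ) : 𝓞 k) b with hf
  obtain ⟨hdeg, hmon⟩ := pol_deg r hr ((l ^ N : ℕ) : 𝓞 k) b
  set g : k[X] := f.map (algebraMap (𝓞 k) k) with hg
  have hgirr : Irreducible g := pol_irr Q r hr _ b hlN hbQ hbQ2
  have hgmon : g.Monic := hmon.map _
  have hgdeg : g.natDegree = r := by
    rw [hg, hmon.natDegree_map, hdeg]
  haveI : Fact (Irreducible g) := ⟨hgirr⟩
  haveI : Module.Finite k (AdjoinRoot g) := hgmon.finite_adjoinRoot
  haveI : NumberField (AdjoinRoot g) := NumberField.of_module_finite k (AdjoinRoot g)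
  have hrank : Module.finrank k (AdjoinRoot g) = r := by
    rw [(AdjoinRoot.powerBasis hgirr.ne_zero).finrank, AdjoinRoot.powerBasis_dim, hgdeg]
  have hroot : aeval (AdjoinRoot.root g) g = 0 := by
    rw [AdjoinRoot.aeval_eq, AdjoinRoot.mk_self]
  have hint : IsIntegral ℤ (AdjoinRoot.root g) := by
    have h1 : IsIntegral (𝓞 k) (AdjoinRoot.root g) := by
      refine ⟨f, hmon, ?_⟩
      rw [← aeval_def, ← aeval_map_algebraMap k]
      exact hroot
    exact isIntegral_trans (R := ℤ) (A := 𝓞 k) _ h1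
  set θ : 𝓞 (AdjoinRoot g) := ⟨AdjoinRoot.root g, hint⟩ with hθ
  refine ⟨AdjoinRoot g, inferInstance, inferInstance, inferInstance, hrank, ?_⟩
  obtain ⟨T, hT, hTc⟩ := fin_places (L := AdjoinRoot g) r hrank ((l ^ N : ℕ) : 𝓞 k) b M S hlNS hb0
    hbS hM θ (by
      intro i hi
      apply RingOfIntegers.ext
      rw [RingOfIntegers.coe_norm]
      have h1 : ((algebraMap (𝓞 k) (𝓞 (AdjoinRoot g)) (((i + 1 : ℕ) : 𝓞 k) *
          ((l ^ N : ℕ) : 𝓞 k)) - θ : 𝓞 (AdjoinRoot g)) : AdjoinRoot g) =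
          algebraMap k (AdjoinRoot g) (((i + 1 : ℕ) : k) * ((l ^ N : ℕ) : k)) -
            AdjoinRoot.root g := by
        simp [hθ]
      rw [h1, norm_sub _ _ g hgmon hgirr hroot (by rw [hgdeg, hrank])]
      rw [hg, hf, pol_map]
      have h2 := pol_eval_node r ((l ^ N : ℕ) : k) (algebraMap (𝓞 k) k b) i hi
      rw [map_natCast]
      exact h2)
  refine ⟨T, hT, ?_⟩
  have hI := inf_places (L := AdjoinRoot g) r hrank (l ^ N) (pow_pos hl.pos N) (b : k) hN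
    (AdjoinRoot.root g) (by
      intro φ z hz
      have h1 : eval₂ φ z g = 0 := by
        rw [eval₂_eq_eval_map, hg, hf, pol_map, pol_map, map_natCast, map_natCast]
        exact hz
      exact ⟨AdjoinRoot.lift φ z h1, by
        ext x
        exact AdjoinRoot.lift_of h1, AdjoinRoot.lift_root h1⟩) (by
      intro Φ Ψ h1 h2
      apply AdjoinRoot.ringHom_ext
      · exact h1
      · exact h2)
  rw [mul_add]
  exact add_le_add hI hTc

end Pool.Agent.K4H7.ET
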