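import Mathlib

set_option autoImplicit false
set_option maxHeartbeats 400000

/-!
The number of places above a given set of places is at most the degree times their number.
-/

namespace Pool.Agent.K4H7.ET

open NumberField IsDedekindDomain

variable {k L : Type} [Field k] [NumberField k] [Field L] [NumberField L] [Algebra k L]

/-- infinite places of `L` and `k` -/
theorem card_inf_le : Fintype.card (InfinitePlace L) ≤
    Module.finrank k L * Fintype.card (InfinitePlace k) := by
  classical
  have h1 : (Finset.univ : Finset (InfinitePlace L)).card ≤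
      Module.finrank k L * (Finset.univ : Finset (InfinitePlace k)).card := by
    refine Finset.card_le_mul_card_image_of_maps_to
      (f := fun w : InfinitePlace L => w.comap (algebraMap k L)) (fun _ _ => Finset.mem_univ _)
      (Module.finrank k L) fun v _ => ?_
    letI : Algebra k ℂ := v.embedding.toAlgebra
    have hcard : Fintype.card (L →ₐ[k] ℂ) = Module.finrank k L := AlgHom.card k L ℂ
    rw [← hcard, ← Finset.card_univ]
    -- every place above `v` comes from a `k`-embedding
    have hsurj : (Finset.univ.filter fun w : InfinitePlace L => w.comap (algebraMap k L) = v) ⊆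
        (Finset.univ : Finset (L →ₐ[k] ℂ)).image
          (fun σ : L →ₐ[k] ℂ => InfinitePlace.mk σ.toRingHom) := by
      intro w hw
      have hw' := (Finset.mem_filter.1 hw).2
      rw [Finset.mem_image]
      have hcm : InfinitePlace.mk (w.embedding.comp (algebraMap k L)) = v := by
        rw [← hw', ← InfinitePlace.comap_mk, InfinitePlace.mk_embedding]
      rcases (InfinitePlace.mk_eq_iff.1 (hcm.trans (InfinitePlace.mk_embedding v).symm)) with h | h
      · refine ⟨{ w.embedding with commutes' := fun x => RingHom.congr_fun h x },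
          Finset.mem_univ _, ?_⟩
        exact InfinitePlace.mk_embedding w
      · refine ⟨{ ComplexEmbedding.conjugate w.embedding with
            commutes' := fun x => RingHom.congr_fun h x }, Finset.mem_univ _, ?_⟩
        · have : InfinitePlace.mk (ComplexEmbedding.conjugate w.embedding) = w := by
            rw [InfinitePlace.mk_conjugate_eq, InfinitePlace.mk_embedding]
          exact this
    exact (Finset.card_le_card hsurj).trans Finset.card_image_le
  simpa using h1

variable (k L) in
/-- primes above a prime -/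
theorem card_primes_le (v : HeightOneSpectrum (𝓞 k)) :
    ({w : HeightOneSpectrum (𝓞 L) | w.asIdeal.LiesOver v.asIdeal}).Finite ∧
    ({w : HeightOneSpectrum (𝓞 L) | w.asIdeal.LiesOver v.asIdeal}).ncard ≤
      Module.finrank k L := by
  classical
  have := v.isMaximal
  have : NoZeroSMulDivisors (𝓞 k) (𝓞 L) := ⟨fun {c x} h => by
    rw [Algebra.smul_def] at h
    rcases mul_eq_zero.1 h with h | h
    · exact Or.inl ((map_eq_zero_iff _ (FaithfulSMul.algebraMap_injective (𝓞 k) (𝓞 L))).1 h)
    · exact Or.inr h⟩
  have h1 := Ideal.card_primesOverFinset_le_finrank (R := 𝓞 k) (S := 𝓞 L) k L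
    (p := v.asIdeal) v.ne_bot
  have hinj : Set.InjOn (fun w : HeightOneSpectrum (𝓞 L) => w.asIdeal)
      {w : HeightOneSpectrum (𝓞 L) | w.asIdeal.LiesOver v.asIdeal} :=
    fun w _ w' _ h => HeightOneSpectrum.ext h
  have hmaps : ∀ w ∈ {w : HeightOneSpectrum (𝓞 L) | w.asIdeal.LiesOver v.asIdeal},
      w.asIdeal ∈ (↑(IsDedekindDomain.primesOverFinset v.asIdeal (𝓞 L)) : Set (Ideal (𝓞 L))) := by
    intro w hw
    rw [Finset.mem_coe, IsDedekindDomain.mem_primesOverFinset_iff v.ne_bot]
    exact ⟨w.isPrime, hw⟩
  refine ⟨Set.Finite.of_injOn hmaps hinj (Finset.finite_toSet _), ?_⟩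
  refine le_trans ?_ h1
  rw [← Set.ncard_coe_finset]
  exact Set.ncard_le_ncard_of_injOn _ hmaps hinj (Finset.finite_toSet _)

variable (k L) in
/-- primes above a finite set of primes -/
theorem card_above_le (S : Finset (HeightOneSpectrum (𝓞 k))) :
    ({w : HeightOneSpectrum (𝓞 L) | ∃ v ∈ S, w.asIdeal.LiesOver v.asIdeal}).Finite ∧
    ({w : HeightOneSpectrum (𝓞 L) | ∃ v ∈ S, w.asIdeal.LiesOver v.asIdeal}).ncard ≤
      Module.finrank k L * S.card := by
  classical
  have h0 : {w : HeightOneSpectrum (𝓞 L) | ∃ v ∈ S, w.asIdeal.LiesOver v.asIdeal} =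
      ⋃ v ∈ S, {w : HeightOneSpectrum (𝓞 L) | w.asIdeal.LiesOver v.asIdeal} := by
    ext w
    simp
  have hfin : ({w : HeightOneSpectrum (𝓞 L) |
      ∃ v ∈ S, w.asIdeal.LiesOver v.asIdeal}).Finite := by
    rw [h0]
    exact S.finite_toSet.biUnion fun v _ => (card_primes_le k L v).1
  refine ⟨hfin, ?_⟩
  rw [Set.ncard_eq_toFinset_card _ hfin]
  set U := fun v : HeightOneSpectrum (𝓞 k) => (card_primes_le k L v).1.toFinset with hU
  have h1 : hfin.toFinset ⊆ S.biUnion U := by
    intro w hw
    rw [Set.Finite.mem_toFinset] at hw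
    obtain ⟨v, hv, hwv⟩ := hw
    rw [Finset.mem_biUnion]
    exact ⟨v, hv, by rw [hU, Set.Finite.mem_toFinset]; exact hwv⟩
  refine (Finset.card_le_card h1).trans (Finset.card_biUnion_le.trans ?_)
  calc ∑ v ∈ S, (U v).card ≤ ∑ _v ∈ S, Module.finrank k L := Finset.sum_le_sum fun v _ => by
        rw [hU, ← Set.ncard_eq_toFinset_card _ (card_primes_le k L v).1]
        exact (card_primes_le k L v).2
    _ = Module.finrank k L * S.card := by
        rw [Finset.sum_const, smul_eq_mul, mul_comm]

end Pool.Agent.K4H7.ET
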